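import Pool.Agent.P.MP_9492fd_pr.Wt

/-! Factorization of the stationary law across a cut. -/

open Finset

namespace Pool.Agent.P.MP_9492fd_pr

variable {n : ℕ}

lemma D_anti {S B : Finset (Fin n)} {r j : Fin n} (hc : S.card < B.card) (hj : j ∈ B)
    (h : j ∈ D S (insert r B)) : j ∈ D S B := by
  rw [mem_D] at h ⊢
  have := Q_mono (Subset.refl S) (subset_insert r B) hc j
  exact ⟨hj, by omega⟩

/-- an unused service on the arc from `r` to `p` absorbs the extra service at `r` -/
lemma D_agree' {S B : Finset (Fin n)} {r j p : Fin n} (hr : r ∉ B) (hc : S.card < B.card)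
    (hjB : j ∈ B) (hjD : j ∉ D S (insert r B)) (hp : p.val < r.val)
    (hj : r.val < j.val ∨ j.val < p.val) : p ∈ D S B ↔ p ∈ D S (insert r B) := by
  rcases hj with hj | hj
  · exact D_agree hr (Subset.refl S) hc hj hjB hjD p hp
  have hBB : B ⊆ insert r B := subset_insert _ _
  have hc' : S.card < (insert r B).card := lt_of_lt_of_le hc (card_le_card hBB)
  obtain ⟨q', hq'⟩ : ∃ q', q' = Q S (insert r B) := ⟨_, rfl⟩
  have hIq' : IsQ S (insert r B) q' := hq' ▸ isQ_Q hc'.le
  have hj0 : q' j + ind S j = 0 := by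
    have h1 : ¬ (0 < Q S (insert r B) j + ind S j) := fun hh => hjD (mem_D.2 ⟨hBB hjB, hh⟩)
    rw [hq']; omega
  have hle := le_of_super (q' := fun i => if r.val < i.val ∨ i.val ≤ j.val then q' i + 1 else q' i)
    (isQ_Q hc.le) hc (fun i => by
      have hv := nx_val i
      have hi := hIq' i
      by_cases hir : i = r
      · subst hir
        rw [ind_of_mem (mem_insert_self _ _)] at hi
        rw [ind_of_not_mem hr, if_neg (by omega), if_pos (by split_ifs at hv <;> omega)]
        omega
      · have e1 : ind (insert r B) i = ind B i := by simp [ind, hir]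
        have hir' : i.val ≠ r.val := fun hh => hir (Fin.ext hh)
        by_cases hij : i = j
        · subst hij
          rw [ind_of_mem hjB, if_pos (by omega)]
          omega
        · have hij' : i.val ≠ j.val := fun hh => hij (Fin.ext hh)
          split_ifs at hv ⊢ <;> omega) p
  have hge : q' p ≤ Q S B p := hq' ▸ Q_mono (Subset.refl S) hBB hc p
  rw [if_neg (by omega)] at hle
  have hpr : p ≠ r := fun hh => by rw [hh] at hp; omega
  rw [mem_D, mem_D, ← hq', le_antisymm hle hge]
  simp [hpr]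

lemma agree_far {S B : Finset (Fin n)} {p q : Fin n} (hq : q ∉ B) (hp : p.val < q.val)
    (hc : S.card + (q.val - p.val) ≤ B.card) : p ∈ D S B ↔ p ∈ D S (insert q B) := by
  have hc' : S.card < B.card := by omega
  obtain ⟨j, h1, h2⟩ : ∃ j ∈ B \ D S B, j ∉ Ioo p q := by
    refine exists_mem_notMem_of_card_lt_card ?_
    rw [card_sdiff_of_subset (D_subset _ _), card_D hc'.le, Fin.card_Ioo]
    omega
  rw [mem_sdiff] at h1
  have h3 : j ∉ D S (insert q B) := fun e => h1.2 (D_anti hc' h1.1 e)
  by_cases e : j = p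
  · subst e
    exact iff_of_false h1.2 h3
  · refine D_agree' hq hc' h1.1 h3 hp ?_
    have e1 : j.val ≠ p.val := fun h => e (Fin.ext h)
    have e2 : j.val ≠ q.val := fun h => hq (Fin.ext h ▸ h1.1)
    rw [mem_Ioo, Fin.lt_def, Fin.lt_def] at h2
    omega

/-- indicator that site `q` is not in level `c` -/
def hh (F : Ch n) (q : Fin n) (c : ℕ) : ℝ := if q ∈ F c then 0 else 1

/-- indicator that every site `q` has label at least `θ q` -/
def iC (θ : Fin n → ℕ) (F : Ch n) : ℝ := ∏ q, hh F q (θ q)

/-- the sites of `S` carry the labels `i` -/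
def XE (S : Finset (Fin n)) (i : Fin n → ℕ) (F : Ch n) : Prop :=
  ∀ p ∈ S, p ∈ F (i p + 1) ∧ p ∉ F (i p)

open Classical in
/-- its indicator -/
noncomputable def iX (S : Finset (Fin n)) (i : Fin n → ℕ) (F : Ch n) : ℝ :=
  if XE S i F then 1 else 0

/-- the gap condition left of the cut `s` -/
def Gap (S : Finset (Fin n)) (i : Fin n → ℕ) (s u : ℕ) : Prop :=
  ∀ p ∈ S, p.val < s ∧
    i p + 2 + (univ.filter fun z : Fin n => p < z ∧ z.val < s ∧ (z ∉ S ∨ i p < i z)).card ≤ u

lemma hh_zero {t : ℕ} {F : Ch n} (h : Valid t F) (q : Fin n) : hh F q 0 = 1 := by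
  have := h.1 0
  rw [Nat.zero_min, card_eq_zero] at this
  simp [hh, this]

lemma card_le_n (B : Finset (Fin n)) : B.card ≤ n := by simpa using card_le_univ B

lemma ins_C {F : Ch n} (hF : Valid n F) {B : Finset (Fin n)} {q : Fin n} (hq : q ∉ B)
    {θ : Fin n → ℕ} (hθ : ∀ z, θ z = 0 ∨ z.val < q.val ∧ θ z + (q.val - z.val) ≤ B.card) :
    iC θ (step B F) = iC θ (step (insert q B) F) := by
  refine prod_congr rfl fun z _ => ?_
  rcases hθ z with e | ⟨e1, e2⟩
  · rw [e, hh_zero (hF.step ((card_le_n _).trans (Nat.le_succ n))),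
      hh_zero (hF.step ((card_le_n _).trans (Nat.le_succ n)))]
  · have := hF.1 (θ z)
    refine if_congr ?_ rfl rfl
    rw [step, step, card_insert_of_notMem hq, if_pos (by omega), if_pos (by omega)]
    exact agree_far hq e1 (by omega)

lemma ins_X {F : Ch n} (hF : Valid n F) {B S : Finset (Fin n)} {q : Fin n} (hq : q ∉ B)
    {i : Fin n → ℕ} {s u : ℕ} (hG : Gap S i s u) (hs : s ≤ q.val) (hB : u + (q.val - s) ≤ B.card) :
    iX S i (step B F) = iX S i (step (insert q B) F) := by
  have hc : ∀ c, c < B.card → (F c).card = c := fun c h => by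
    have := card_le_n B
    rw [hF.1]; omega
  have h0 : ∀ B' : Finset (Fin n), B.card ≤ B'.card → (XE S i (step B' F) ↔
      ∀ p ∈ S, p ∈ D (F (i p + 1)) B' ∧ p ∉ D (F (i p)) B') := fun B' h =>
    forall₂_congr fun p hp => by
      have := (hG p hp).2
      simp only [step]
      rw [if_pos (by omega), if_pos (by omega)]
  have h1 : ∀ B' : Finset (Fin n), B.card ≤ B'.card →
      (∀ p ∈ S, p ∈ D (F (i p + 1)) B') → ∀ p ∈ S, ∃ j ∈ B, j ∉ D (F (i p + 1)) B' ∧
        (q.val < j.val ∨ j.val < p.val) := fun B' h H p hp => by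
    obtain ⟨g1, g2⟩ := hG p hp
    have g3 := hc (i p + 1) (by omega)
    obtain ⟨j, a1, a2⟩ : ∃ j ∈ B, j ∉ D (F (i p + 1)) B' ∪
        ((univ.filter fun z : Fin n => p < z ∧ z.val < s ∧ (z ∉ S ∨ i p < i z)) ∪
          Ico ⟨s, by omega⟩ q) := by
      refine exists_mem_notMem_of_card_lt_card
        (((card_union_le _ _).trans (Nat.add_le_add_left (card_union_le _ _) _)).trans_lt ?_)
      rw [card_D (by omega), Fin.card_Ico]
      simp only
      omega
    simp only [mem_union, mem_filter, mem_univ, true_and, mem_Ico, not_or, Fin.lt_def,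
      Fin.le_def] at a2
    refine ⟨j, a1, a2.1, ?_⟩
    have e1 : j.val ≠ p.val := fun e => a2.1 (Fin.ext e ▸ H p hp)
    have e2 : j.val ≠ q.val := fun e => hq (Fin.ext e ▸ a1)
    by_contra a3
    refine a2.2.1 ⟨by omega, by omega, ?_⟩
    by_contra a4
    rw [not_or, not_not, not_lt] at a4
    exact a2.1 (D_mono (hF.2 (Nat.add_le_add_right a4.2 1)) (by omega) (H j a4.1))
  have h2 : (∀ p ∈ S, ∃ j ∈ B, j ∉ D (F (i p + 1)) (insert q B) ∧
      (q.val < j.val ∨ j.val < p.val)) → (XE S i (step B F) ↔ XE S i (step (insert q B) F)) := by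
    intro H
    rw [h0 B le_rfl, h0 _ (card_le_card (subset_insert _ _))]
    refine forall₂_congr fun p hp => ?_
    obtain ⟨j, a1, a2, a3⟩ := H p hp
    obtain ⟨g1, g2⟩ := hG p hp
    have g3 := hc (i p + 1) (by omega)
    have g4 := hc (i p) (by omega)
    rw [D_agree' hq (by omega) a1 a2 (by omega) a3, D_agree' (S := F (i p)) hq (by omega) a1
      (fun e => a2 (D_mono (hF.2 (Nat.le_add_right _ 1)) (by rw [card_insert_of_notMem hq]; omega) e))
      (by omega) a3]
  have h3 : XE S i (step B F) ↔ XE S i (step (insert q B) F) := by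
    refine ⟨fun H => (h2 fun p hp => ?_).1 H, fun H => (h2 ?_).2 H⟩
    · obtain ⟨j, a1, a2, a3⟩ := h1 B le_rfl (fun p hp => ((h0 B le_rfl).1 H p hp).1) p hp
      have := (hG p hp).2
      exact ⟨j, a1, fun e => a2 (D_anti (by rw [hc _ (by omega)]; omega) a1 e), a3⟩
    · have := card_le_card (subset_insert q B)
      exact h1 _ this fun p hp => ((h0 _ this).1 H p hp).1
  rw [iX, iX, h3]

lemma shift {x : Fin n → ℝ} {q : Fin n} (hx : x q ≠ 0) {W : Finset (Fin n) → ℝ} {u : ℕ}
    (h1 : ∀ B, q ∉ B → u ≤ B.card → W B = W (insert q B))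
    (h2 : ∀ t, u ≤ t → t ≤ n → ∑ B ∈ powersetCard t univ, wt x B * W B = 0) (d : ℕ) :
    ∀ t, u ≤ t → t + d = n →
      ∑ B ∈ (powersetCard t univ).filter fun B => q ∉ B, wt x B * W B = 0 := by
  induction d with
  | zero =>
    refine fun t _ ht => sum_eq_zero fun B hB => ?_
    simp only [mem_filter, mem_powersetCard] at hB
    exact absurd (eq_univ_of_card B (by simpa [hB.1.2] using ht) ▸ mem_univ q) hB.2
  | succ d ih =>
    intro t hu ht
    have a1 := ih (t + 1) (by omega) (by omega)
    have a2 := h2 (t + 1) (by omega) (by omega)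
    rw [← sum_filter_add_sum_filter_not _ fun B => q ∈ B, a1, add_zero] at a2
    refine mul_left_cancel₀ hx ?_
    rw [mul_zero, ← a2, mul_sum]
    refine sum_bij' (fun B _ => insert q B) (fun B _ => B.erase q) ?_ ?_ ?_ ?_ ?_ <;>
      simp only [mem_filter, mem_powersetCard, subset_univ, true_and]
    · exact fun B hB => ⟨by rw [card_insert_of_notMem hB.2, hB.1], mem_insert_self _ _⟩
    · exact fun B hB => ⟨by rw [card_erase_of_mem hB.2, hB.1]; rfl, notMem_erase _ _⟩
    · exact fun B hB => erase_insert hB.2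
    · exact fun B hB => insert_erase hB.2
    · intro B hB
      rw [← h1 B hB.2 (by omega), wt, wt, prod_insert hB.2, mul_assoc]

/-- removing the last site -/
lemma peel (hn : 2 ≤ n) {x : Fin n → ℝ} (hx : ∀ i, 0 < x i) (hi : Function.Injective x)
    {H : Ch n → ℝ} {q : Fin n} {u : ℕ} (hu : u ≤ n)
    (h1 : ∀ t, u ≤ t → ∀ F : Ch n, H (fun c => F (min c t)) = H F)
    (h2 : ∀ B, q ∉ B → u ≤ B.card → ∀ F, Valid n F → H (step B F) = H (step (insert q B) F)) :
    es u x * mlq n x (fun F => H F * hh F q u) =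
      (∑ B ∈ (powersetCard u univ).filter fun B => q ∉ B, wt x B) * mlq n x H := by
  have a1 := shift (hx q).ne' (u := u) (W := fun B => mlq n x (fun F => H (step B F)) - mlq n x H)
    (fun B e1 e2 => by rw [sup_mlq n x _ _ (h2 B e1 e2)])
    (fun t e1 e2 => by
      have := fm_wt hn hx hi e2 H
      simp only [h1 t e1, row_apply] at this
      simp only [mul_sub, sum_sub_distrib, ← sum_mul, ← this, es, sub_self]) (n - u) u le_rfl
    (by omega)
  have a2 := fm_wt hn hx hi hu fun F => H F * hh F q u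
  simp only [h1 u le_rfl, hh, min_self, row_apply] at a2
  simp only [mul_sub, sum_sub_distrib, ← sum_mul, sub_eq_zero] at a1
  simp only [hh]
  rw [a2, ← a1, sum_filter]
  refine sum_congr rfl fun B hB => ?_
  have : ∀ F, step B F u = B := fun F => by rw [step, (mem_powersetCard.1 hB).2, if_neg (lt_irrefl _)]
  simp only [this]
  by_cases e : q ∈ B
  · simp only [e, if_true, mul_zero, not_true, if_false]
    exact mul_eq_zero_of_right _ (map_zero _)
  · simp [e]

/-- covariance with `X` -/
noncomputable def dl (X : Ch n → ℝ) : Fam n := fun x =>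
  mlq n x 1 • (mlq n x).comp (LinearMap.mulLeft ℝ X) - mlq n x X • mlq n x

lemma dl_apply (X : Ch n → ℝ) (x : Fin n → ℝ) (g : Ch n → ℝ) :
    dl X x g = mlq n x 1 * mlq n x (fun F => X F * g F) - mlq n x X * mlq n x g := rfl

lemma sup_dl (X : Ch n → ℝ) : Sup n (dl X) := fun x g g' e => by
  rw [dl_apply, dl_apply, sup_mlq n x g g' e,
    sup_mlq n x (fun F => X F * g F) (fun F => X F * g' F) fun F hF => by rw [e F hF]]

lemma ex_dl {X : Ch n → ℝ} {x : Fin n → ℝ} {a : Fin n} (hx : x (finRotate n a) ≠ 0)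
    (hX : ∀ F, X (tauC a F) = X F) : ExAt tauC (dl X) x a := by
  intro g
  have e : ∀ Y : Ch n → ℝ, (∀ F, Y (tauC a F) = Y F) →
      mlq n (x ∘ Equiv.swap a (finRotate n a)) Y = mlq n x Y := fun Y hY => by
    have := ex_mlq n x a Y
    simp only [hY] at this
    exact mul_left_cancel₀ hx (by rw [← this]; ring)
  have e1 := ex_mlq n x a g
  have e2 := ex_mlq n x a fun F => X F * g F
  simp only [hX] at e2
  simp only [dl_apply, e X hX, e 1 fun _ => rfl]
  linear_combination mlq n x 1 * e2 - mlq n x X * e1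

/-- sites between the cut and `q` with threshold below `v` -/
def cnt (s : ℕ) (θ : Fin n → ℕ) (q : Fin n) (v : ℕ) : ℕ :=
  (univ.filter fun z : Fin n => s ≤ z.val ∧ z.val < q.val ∧ θ z < v).card

/-- admissible thresholds right of the cut -/
def Adm (s u : ℕ) (θ : Fin n → ℕ) : Prop :=
  ∀ q, θ q ≠ 0 → s ≤ q.val ∧ u + cnt s θ q (θ q) ≤ θ q

/-- the potential of the induction -/
def pot (θ : Fin n → ℕ) : ℕ := ∑ q, (n - θ q) * (q.val + 1)

section comb

open Function

variable {s u : ℕ} {θ : Fin n → ℕ}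

lemma cnt_update {p q : Fin n} (h : p.val ≤ q.val) (v w : ℕ) :
    cnt s (update θ q v) p w = cnt s θ p w :=
  congrArg card (filter_congr fun z _ => and_congr_right fun _ => and_congr_right fun e => by
    rw [update_of_ne fun e' => by subst e'; omega])

lemma cnt_le (q : Fin n) (v : ℕ) (h : s ≤ q.val) : cnt s θ q v ≤ q.val - s := by
  refine (card_le_card (t := Ico ⟨s, by omega⟩ q) fun z hz => ?_).trans (Fin.card_Ico _ _).le
  simp only [mem_filter, mem_Ico, Fin.lt_def, Fin.le_def] at hz ⊢
  omega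

lemma cnt_le_succ {θ' : Fin n → ℕ} {p q : Fin n} {v w : ℕ} (a : Fin n)
    (h : ∀ z, z ≠ a → z.val < p.val → θ z < v → z.val < q.val ∧ θ' z < w) :
    cnt s θ p v ≤ cnt s θ' q w + 1 := by
  refine (card_le_card fun z hz => ?_).trans (card_insert_le a _)
  simp only [mem_filter, mem_insert, mem_univ, true_and] at hz ⊢
  exact (eq_or_ne z a).imp_right fun e => ⟨hz.1, h z e hz.2.1 hz.2.2⟩

lemma cnt_mono {θ' : Fin n → ℕ} {p q : Fin n} {v w : ℕ}
    (h : ∀ z, z.val < p.val → θ z < v → z.val < q.val ∧ θ' z < w) :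
    cnt s θ p v ≤ cnt s θ' q w := by
  refine card_le_card fun z hz => ?_
  simp only [mem_filter, mem_univ, true_and] at hz ⊢
  exact ⟨hz.1, h z hz.2.1 hz.2.2⟩

lemma Adm.raise (h : Adm s u θ) {q : Fin n} {v : ℕ} (hs : s ≤ q.val) (hv : θ q ≤ v)
    (hc : u + cnt s θ q v ≤ v) : Adm s u (update θ q v) := fun z hz => by
  by_cases e : z = q
  · subst e
    rw [update_self, cnt_update le_rfl]
    exact ⟨hs, hc⟩
  · rw [update_of_ne e] at hz ⊢
    refine ⟨(h z hz).1, le_trans (Nat.add_le_add_left (cnt_mono fun y e1 e2 => ⟨e1, ?_⟩) _)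
      (h z hz).2⟩
    by_cases e' : y = q
    · subst e'
      rw [update_self] at e2
      omega
    · rwa [update_of_ne e'] at e2

lemma Adm.swap (h : Adm s u θ) {a b : Fin n} (hb : b.val = a.val + 1) (hd : θ b < θ a)
    (hc : u + cnt s θ a (θ a) < θ a) : Adm s u (update (update θ b (θ a)) a (θ b)) := by
  have hab : b ≠ a := fun e => by subst e; omega
  have ha := (h a (by omega)).1
  intro z hz
  by_cases e : z = a
  · subst e
    rw [update_self] at hz ⊢
    rw [cnt_update le_rfl, cnt_update (by omega)]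
    exact ⟨ha, le_trans (Nat.add_le_add_left (cnt_mono fun y e1 e2 => ⟨by omega, e2⟩) _)
      (h b hz).2⟩
  · rw [update_of_ne e] at hz ⊢
    by_cases e' : z = b
    · subst e'
      rw [update_self]
      refine ⟨by omega, le_trans (Nat.add_le_add_left (cnt_le_succ (θ' := θ) (q := a) (w := θ a) a
        fun y e1 e2 e3 => ?_) _) hc⟩
      have : y.val ≠ a.val := fun e => e1 (Fin.ext e)
      rw [update_of_ne e1, update_of_ne fun e => by subst e; omega] at e3
      exact ⟨by omega, e3⟩
    · rw [update_of_ne e'] at hz ⊢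
      refine ⟨(h z hz).1, le_trans (Nat.add_le_add_left ?_ _) (h z hz).2⟩
      have z1 : z.val ≠ a.val := fun e' => e (Fin.ext e')
      have z2 : z.val ≠ b.val := fun e => e' (Fin.ext e)
      refine card_le_card_of_injOn (Equiv.swap a b) (fun y hy => ?_) (Equiv.injective _).injOn
      simp only [coe_filter, mem_univ, true_and, Set.mem_ofPred_eq] at hy ⊢
      by_cases y1 : y = a
      · subst y1
        rw [update_self] at hy
        rw [Equiv.swap_apply_left]
        exact ⟨by omega, by omega, hy.2.2⟩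
      · rw [update_of_ne y1] at hy
        by_cases y2 : y = b
        · subst y2
          rw [update_self] at hy
          rw [Equiv.swap_apply_right]
          exact ⟨ha, by omega, hy.2.2⟩
        · rwa [Equiv.swap_apply_of_ne_of_ne y1 y2, ← update_of_ne y2 (θ a) θ]

lemma pot_two {p q : Fin n} (h : q ≠ p) (α β : ℕ) :
    pot (update (update θ q β) p α) = (n - α) * (p.val + 1) + ((n - β) * (q.val + 1) +
      ∑ z ∈ (univ.erase p).erase q, (n - θ z) * (z.val + 1)) := by
  rw [pot, ← add_sum_erase _ _ (mem_univ p), ← add_sum_erase _ _ (mem_erase.2 ⟨h, mem_univ q⟩),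
    update_self, update_of_ne h, update_self]
  congr 2
  refine sum_congr rfl fun z hz => ?_
  rw [update_of_ne (ne_of_mem_erase (mem_of_mem_erase hz)), update_of_ne (ne_of_mem_erase hz)]

lemma iC_two {p q : Fin n} (h : q ≠ p) (α β : ℕ) (F : Ch n) :
    iC (update (update θ q β) p α) F = hh F p α * (hh F q β *
      ∏ z ∈ (univ.erase p).erase q, hh F z (θ z)) := by
  rw [iC, ← mul_prod_erase _ _ (mem_univ p), ← mul_prod_erase _ _ (mem_erase.2 ⟨h, mem_univ q⟩),
    update_self, update_of_ne h, update_self]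
  congr 2
  refine prod_congr rfl fun z hz => ?_
  rw [update_of_ne (ne_of_mem_erase (mem_of_mem_erase hz)), update_of_ne (ne_of_mem_erase hz)]

lemma update_two (p q : Fin n) : update (update θ q (θ q)) p (θ p) = θ := by
  rw [update_eq_self, update_eq_self]

/-- without ties and without a movable descent the last site can be removed -/
lemma Adm.last (h : Adm s u θ) {q : Fin n} (hq : θ q ≠ 0) (hl : ∀ z, q.val < z.val → θ z = 0)
    (hT : ∀ p z, θ p ≠ 0 → θ p = θ z → p = z)
    (hD : ∀ a b : Fin n, b.val = a.val + 1 → b.val ≤ q.val → θ b < θ a →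
      θ a ≤ u + cnt s θ a (θ a)) :
    u + (q.val - s) ≤ θ q ∧ ∀ z : Fin n, z.val ≤ q.val → θ z = 0 ∨ θ z + (q.val - z.val) ≤ θ q := by
  obtain ⟨q1, q2⟩ := h q hq
  have h1 : ∀ z, θ z ≤ θ q := by
    obtain ⟨m, -, hm⟩ := exists_max_image univ θ ⟨q, mem_univ _⟩
    refine fun z => (hm z (mem_univ _)).trans (not_lt.1 fun e => ?_)
    have m1 : m.val < q.val := by
      have a1 : ¬ q.val < m.val := fun e' => by have := hl m e'; omega
      have a2 : m.val ≠ q.val := fun e' => by rw [Fin.ext e'] at e; omega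
      omega
    have m2 := hD m ⟨m.val + 1, by omega⟩ rfl m1 (lt_of_le_of_ne (hm _ (mem_univ _)) fun e' => by
      have := congrArg Fin.val (hT m _ (by omega) e'.symm)
      simp at this)
    have m3 : cnt s θ m (θ m) ≤ cnt s θ q (θ q) +
        (univ.filter fun z => θ q < θ z ∧ θ z < θ m).card := by
      refine (card_le_card fun z hz => ?_).trans (card_union_le _ _)
      simp only [mem_filter, mem_union, mem_univ, true_and] at hz ⊢
      have : θ q ≠ θ z := fun e' => by rw [hT q z hq e'] at m1; omega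
      omega
    have m4 : (univ.filter fun z => θ q < θ z ∧ θ z < θ m).card ≤ (Ioo (θ q) (θ m)).card :=
      card_le_card_of_injOn θ (fun z hz => by simpa using hz) fun z hz y _ e' =>
        hT z y (by simp only [coe_filter, Set.mem_ofPred_eq] at hz; omega) e'
    rw [Nat.card_Ioo] at m4
    omega
  have h2 : q.val - s ≤ cnt s θ q (θ q) := by
    refine (Fin.card_Ico ⟨s, by omega⟩ q).ge.trans (card_le_card fun z hz => ?_)
    simp only [mem_filter, mem_Ico, Fin.lt_def, Fin.le_def, mem_univ, true_and] at hz ⊢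
    exact ⟨hz.1, hz.2, lt_of_le_of_ne (h1 z) fun e => by rw [hT q z hq e.symm] at hz; omega⟩
  have h3 : ∀ d, ∀ z : Fin n, z.val + d = q.val → θ z = 0 ∨ θ z + d ≤ θ q := by
    intro d
    induction d with
    | zero => exact fun z _ => Or.inr (h1 z)
    | succ d ih =>
      intro z hz
      by_contra e
      rw [not_or, not_le] at e
      have a1 := ih ⟨z.val + 1, by omega⟩ (by simp only; omega)
      have a2 : θ z ≠ θ ⟨z.val + 1, by omega⟩ := fun e' => by
        have := congrArg Fin.val (hT z _ e.1 e')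
        simp at this
      have a3 := hD z ⟨z.val + 1, by omega⟩ rfl (by simp only; omega) (by omega)
      have a4 := (h z e.1).1
      have a5 := cnt_le (θ := θ) z (θ z) a4
      omega
  exact ⟨by omega, fun z hz => h3 _ z (by omega)⟩

lemma hh_tie {F : Ch n} (hF : Valid n F) {p q : Fin n} (h : q ≠ p) {b : ℕ} (hb : b < n) :
    (hh F p b - hh F p (b + 1)) * (hh F q b - hh F q (b + 1)) = 0 := by
  have h1 : F b ⊆ F (b + 1) := hF.2 (Nat.le_add_right b 1)
  have h2 : (F (b + 1) \ F b).card ≤ 1 := by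
    rw [card_sdiff_of_subset h1, hF.1, hF.1]; omega
  have h3 := card_le_one.1 h2 p
  have h4 := @h1 p
  have h5 := @h1 q
  simp only [mem_sdiff] at h3
  have h6 := fun e e' => h (h3 e q e').symm
  unfold hh
  split_ifs <;> simp_all

lemma hh_swap {t : ℕ} {F : Ch n} (hF : Valid t F) (a : Fin n) {α β : ℕ} (h : β ≤ α) :
    hh (tauC a F) a β * hh (tauC a F) (finRotate n a) α = hh F a β * hh F (finRotate n a) α +
      hh F a α * hh F (finRotate n a) β - hh F a α * hh F (finRotate n a) α := by
  have h1 : F β ⊆ F α := hF.2 h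
  have h4 := @h1 a
  have h5 := @h1 (finRotate n a)
  simp only [hh, tauC, mem_tau_self, mem_tau_next]
  by_cases e1 : a ∈ F α <;> by_cases e2 : a ∈ F β <;> by_cases e3 : finRotate n a ∈ F α <;>
    by_cases e4 : finRotate n a ∈ F β <;> simp_all

variable {S : Finset (Fin n)} {i : Fin n → ℕ}

lemma iX_tau (hG : Gap S i s u) {a : Fin n} (ha : s ≤ a.val) (hb : a.val + 1 < n) (F : Ch n) :
    iX S i (tauC a F) = iX S i F := by
  have : XE S i (tauC a F) ↔ XE S i F := forall₂_congr fun p hp => by
    have h1 := (hG p hp).1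
    have h2 := nx_val a
    rw [if_pos hb] at h2
    have h3 : p ≠ a := fun e => by subst e; omega
    have h4 : p ≠ finRotate n a := fun e => by rw [← e] at h2; omega
    simp only [tauC, mem_tau_other h3 h4]
  rw [iX, iX, this]

lemma dl_peel (hn : 2 ≤ n) (hG : Gap S i s u) {x : Fin n → ℝ} (hx : ∀ i, 0 < x i)
    (hi : Injective x) {q : Fin n} (hs : s ≤ q.val) (hq : θ q ≤ n)
    (h1 : u + (q.val - s) ≤ θ q)
    (h2 : ∀ z, update θ q 0 z = 0 ∨ z.val < q.val ∧ update θ q 0 z + (q.val - z.val) ≤ θ q)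
    (h : dl (iX S i) x (iC (update θ q 0)) = 0) : dl (iX S i) x (iC θ) = 0 := by
  have e : ∀ F, Valid n F → iC θ F = iC (update θ q 0) F * hh F q (θ q) := fun F hF => by
    rw [iC, iC, ← mul_prod_erase _ _ (mem_univ q), ← mul_prod_erase _ _ (mem_univ q), update_self,
      hh_zero hF, one_mul, mul_comm]
    congr 1
    exact prod_congr rfl fun z hz => by rw [update_of_ne (ne_of_mem_erase hz)]
  have l1 : ∀ t, θ q ≤ t → ∀ F : Ch n, iC (update θ q 0) (fun c => F (min c t)) =
      iC (update θ q 0) F := fun t ht F => prod_congr rfl fun z _ => by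
    have := h2 z
    refine if_congr ?_ rfl rfl
    simp only
    rw [min_eq_left (by omega)]
  have l2 : ∀ t, θ q ≤ t → ∀ F : Ch n, iX S i (fun c => F (min c t)) = iX S i F := fun t ht F => by
    have : XE S i (fun c => F (min c t)) ↔ XE S i F := forall₂_congr fun p hp => by
      have := (hG p hp).2
      simp only
      rw [min_eq_left (by omega), min_eq_left (by omega)]
    rw [iX, iX, this]
  have l3 : ∀ B, q ∉ B → θ q ≤ B.card → ∀ F, Valid n F → iC (update θ q 0) (step B F) =
      iC (update θ q 0) (step (insert q B) F) := fun B e1 e2 F hF =>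
    ins_C hF e1 fun z => (h2 z).imp_right fun e => ⟨e.1, e.2.trans e2⟩
  have p1 := peel hn hx hi hq l1 l3
  have p2 := peel hn hx hi (H := fun F => iX S i F * iC (update θ q 0) F) (q := q) hq
    (fun t ht F => by simp only [l1 t ht, l2 t ht])
    fun B e1 e2 F hF => by simp only [l3 B e1 e2 F hF, ins_X hF e1 hG hs (h1.trans e2)]
  rw [sup_dl _ x _ _ e]
  refine mul_left_cancel₀ (es_pos hq hx).ne' ?_
  simp only [dl_apply, mul_assoc] at h p2 ⊢
  linear_combination mlq n x 1 * p2 - mlq n x (iX S i) * p1 +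
    (∑ B ∈ (powersetCard (θ q) univ).filter fun B => q ∉ B, wt x B) * h

/-- threshold events right of the cut are uncorrelated with the labels left of it -/
theorem dl_zero (hn : 2 ≤ n) (hG : Gap S i s u) (r m : ℕ) : ∀ θ : Fin n → ℕ, pot θ = m →
    Adm s u θ → (∀ q : Fin n, r ≤ q.val → θ q = 0) → ∀ x : Fin n → ℝ, (∀ i, 0 < x i) →
    Injective x → dl (iX S i) x (iC θ) = 0 := by
  induction r generalizing m with
  | zero =>
    intro θ _ _ h x _ _
    rw [sup_dl _ x (iC θ) 1 fun F hF => prod_eq_one fun q _ => by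
      rw [h q (Nat.zero_le _), hh_zero hF], dl_apply]
    simp [mul_comm]
  | succ r ihr =>
  induction m using Nat.strong_induction_on with
  | _ m ih =>
  intro θ hm hA hr x hx hi
  by_cases c0 : ∀ q : Fin n, q.val = r → θ q = 0
  · exact ihr _ θ rfl hA (fun q e => e.eq_or_lt.elim (fun e => c0 q e.symm) (hr q)) x hx hi
  obtain ⟨q, hq, hq0⟩ : ∃ q : Fin n, q.val = r ∧ θ q ≠ 0 := by simpa using c0
  by_cases c1 : ∃ z, n ≤ θ z
  · obtain ⟨z, hz⟩ := c1
    rw [sup_dl _ x (iC θ) 0 fun F hF => prod_eq_zero (mem_univ z) (if_pos ?_), map_zero]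
    rw [eq_univ_of_card (F (θ z)) (by rw [hF.1, Fintype.card_fin]; omega)]
    exact mem_univ _
  have c1 : ∀ z, θ z < n := fun z => not_le.1 fun e => c1 ⟨z, e⟩
  have hup : ∀ {p p' : Fin n} (α β : ℕ), p.val ≤ r → p'.val ≤ r → ∀ z : Fin n, r + 1 ≤ z.val →
      update (update θ p' β) p α z = 0 := fun α β e1 e2 z e => by
    rw [update_of_ne fun e' => by subst e'; omega, update_of_ne fun e' => by subst e'; omega,
      hr z e]
  have hle : ∀ z : Fin n, θ z ≠ 0 → z.val ≤ r := fun z e => not_lt.1 fun e' => e (hr z e')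
  by_cases c2 : ∃ p' p : Fin n, p.val < p'.val ∧ θ p ≠ 0 ∧ θ p = θ p'
  · obtain ⟨p', ⟨p, a1, a2, a3⟩, hmin⟩ := exists_min_image (univ.filter fun p' : Fin n =>
      ∃ p : Fin n, p.val < p'.val ∧ θ p ≠ 0 ∧ θ p = θ p') Fin.val
      (c2.imp fun p' h => mem_filter.2 ⟨mem_univ _, h⟩) |>.imp fun p' h =>
        And.intro (mem_filter.1 h.1).2 h.2
    simp only [mem_filter, mem_univ, true_and] at hmin
    have hne : p' ≠ p := fun e => by subst e; omega
    have b1 : ∀ y : Fin n, y.val ≤ p'.val → θ y = θ p →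
        cnt s θ y (θ p + 1) ≤ cnt s θ y (θ p) + 1 := fun y e1 e2 =>
      cnt_le_succ p fun z f1 f2 f3 => ⟨f2, lt_of_le_of_ne (by omega) fun f4 => by
        rcases lt_or_gt_of_ne (fun e => f1 (Fin.ext e) : z.val ≠ p.val) with f5 | f5
        · have := hmin p ⟨z, f5, by omega, f4⟩
          omega
        · have := hmin z ⟨p, f5, a2, f4.symm⟩
          omega⟩
    have b2 : ∀ α β : ℕ, α ≤ 1 → β ≤ 1 → 0 < α + β →
        dl (iX S i) x (iC (update (update θ p' (θ p + β)) p (θ p + α))) = 0 := by
      intro α β e1 e2 e3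
      have g1 := hA p a2
      have g2 := hA p' (by omega)
      have g3 := b1 p a1.le rfl
      have g4 := b1 p' le_rfl a3.symm
      rw [← a3] at g2
      refine ih _ ?_ _ rfl (Adm.raise (hA.raise g2.1 (by omega) ?_) g1.1 ?_ ?_)
        (hup _ _ (hle p a2) (hle p' (by omega))) x hx hi
      · have hp := pot_two (θ := θ) hne (θ p) (θ p')
        rw [update_two] at hp
        rw [← hm, hp, pot_two hne, ← a3]
        have := c1 p
        obtain ⟨k, hk⟩ : ∃ k, n = θ p + (k + 1) := ⟨n - θ p - 1, by omega⟩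
        rw [show n - (θ p + α) = k + 1 - α by omega, show n - (θ p + β) = k + 1 - β by omega,
          show n - θ p = k + 1 by omega]
        interval_cases α <;> interval_cases β <;> (simp at e3 ⊢; try nlinarith)
      · interval_cases β
        · exact g2.2
        · omega
      · rw [update_of_ne hne.symm]; omega
      · rw [cnt_update a1.le]
        interval_cases α
        · exact g1.2
        · omega
    rw [sup_dl _ x _ (iC (update (update θ p' (θ p + 0)) p (θ p + 1)) +
      iC (update (update θ p' (θ p + 1)) p (θ p + 0)) -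
      iC (update (update θ p' (θ p + 1)) p (θ p + 1))) fun F hF => ?_, map_sub, map_add,
      b2 1 0 le_rfl zero_le_one one_pos, b2 0 1 zero_le_one le_rfl one_pos,
      b2 1 1 le_rfl le_rfl two_pos, add_zero, sub_zero]
    conv_lhs => rw [← update_two (θ := θ) p p']
    simp only [Pi.add_apply, Pi.sub_apply, iC_two hne, add_zero, ← a3]
    linear_combination (∏ z ∈ (univ.erase p).erase p', hh F z (θ z)) * hh_tie hF hne (c1 p)
  have hT : ∀ p z, θ p ≠ 0 → θ p = θ z → p = z := fun p z e1 e2 => by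
    by_contra e
    rcases lt_or_gt_of_ne (fun e' => e (Fin.ext e') : p.val ≠ z.val) with f | f
    · exact c2 ⟨z, p, f, e1, e2⟩
    · exact c2 ⟨p, z, f, by omega, e2.symm⟩
  by_cases c3 : ∀ a b : Fin n, b.val = a.val + 1 → b.val ≤ q.val → θ b < θ a →
      θ a ≤ u + cnt s θ a (θ a)
  · obtain ⟨a1, a2⟩ := hA.last hq0 (fun z e => hr z (by omega)) hT c3
    refine dl_peel hn hG hx hi (hA q hq0).1 (c1 q).le a1 (fun z => ?_)
      (ihr _ _ rfl (fun z hz => ?_) (fun z e => ?_) x hx hi)
    · by_cases e : z = q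
      · rw [e, update_self]; exact Or.inl rfl
      · rw [update_of_ne e]
        have : z.val ≠ q.val := fun e' => e (Fin.ext e')
        by_cases e' : θ z = 0
        · exact Or.inl e'
        · have := hle z e'
          exact (a2 z (by omega)).imp_right fun e => ⟨by omega, e⟩
    · have e : z ≠ q := fun e => hz (by rw [e, update_self])
      rw [update_of_ne e] at hz ⊢
      rw [cnt_update (by have := hle z hz; omega)]
      exact hA z hz
    · by_cases e' : z = q
      · rw [e', update_self]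
      · have : z.val ≠ q.val := fun e => e' (Fin.ext e)
        rw [update_of_ne e', hr z (by omega)]
  push Not at c3
  obtain ⟨a, b, a1, a2, a3, a4⟩ := c3
  have hb : b = finRotate n a := Fin.ext (by rw [nx_val, if_pos (by omega), a1])
  have hne : b ≠ a := fun e => by subst e; omega
  have g1 := hA a (by omega)
  have g2 := c1 a
  have hp : pot θ = (n - θ a) * (a.val + 1) + ((n - θ b) * (b.val + 1) +
      ∑ z ∈ (univ.erase a).erase b, (n - θ z) * (z.val + 1)) := by
    rw [← pot_two hne, update_two]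
  obtain ⟨k, hk⟩ : ∃ k, n - θ b = n - θ a + (k + 1) := ⟨θ a - θ b - 1, by omega⟩
  have b1 := ih _ (by rw [← hm, hp, pot_two hne, hk, a1]; nlinarith) _ rfl (hA.swap a1 a3 a4)
    (hup _ _ (by omega) (by omega))
  have b2 := ih (pot (update (update θ b (θ a)) a (θ a)))
    (by rw [← hm, hp, pot_two hne, hk]; nlinarith) _ rfl
    (Adm.raise (hA.raise (by omega) a3.le (le_trans (Nat.add_le_add_left (cnt_mono fun z e1 e2 =>
      ⟨lt_of_le_of_ne (by omega) fun e => by rw [Fin.ext e] at e2; omega, e2⟩) _) g1.2)) g1.1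
      (by rw [update_of_ne hne.symm]) (by rw [cnt_update (by omega)]; exact g1.2))
    (hup _ _ (by omega) (by omega)) x hx hi
  have b3 := ex_dl (x := x) (hx _).ne' (iX_tau hG g1.1 (by omega))
    (iC (update (update θ b (θ a)) a (θ b)))
  rw [b1 x hx hi, b1 (x ∘ _) (fun j => hx _) (hi.comp (Equiv.injective _)), mul_zero, mul_zero, add_zero,
    sup_dl _ x _ (iC (update (update θ b (θ a)) a (θ b)) + iC θ -
      iC (update (update θ b (θ a)) a (θ a))) fun F hF => ?_, map_sub, map_add, b1 x hx hi, b2,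
    zero_add, sub_zero] at b3
  · exact (mul_eq_zero.1 b3).resolve_left (sub_ne_zero.2 fun e => hne (hb.trans (hi e)))
  · have e : ∏ z ∈ (univ.erase a).erase b, hh (tauC a F) z (θ z) =
        ∏ z ∈ (univ.erase a).erase b, hh F z (θ z) := prod_congr rfl fun z hz =>
      if_congr (mem_tau_other (ne_of_mem_erase (mem_of_mem_erase hz))
        (hb ▸ ne_of_mem_erase hz)) rfl rfl
    have e' := iC_two (θ := θ) hne (θ a) (θ b) F
    rw [update_two] at e'
    simp only [Pi.add_apply, Pi.sub_apply, iC_two hne, e, e']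
    have := hh_swap hF a a3.le
    rw [← hb] at this
    linear_combination (∏ z ∈ (univ.erase a).erase b, hh F z (θ z)) * this

end comb

lemma dl_one {X g : Ch n → ℝ}
    (h : ∀ x : Fin n → ℝ, (∀ i, 0 < x i) → Function.Injective x → dl X x g = 0) :
    dl X 1 g = 0 := by
  have h1 : Continuous fun x => dl X x g := by
    simp only [dl_apply]
    exact ((cont_mlq _ _).mul (cont_mlq _ _)).sub ((cont_mlq _ _).mul (cont_mlq _ _))
  have h2 : Continuous fun ε : ℝ => dl X (fun j : Fin n => 1 + ε * (j.val : ℝ)) g :=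
    h1.comp (by fun_prop)
  have h3 : (0 : ℝ) ∈ closure (Set.Ioi (0 : ℝ)) := by simp
  have h4 := closure_minimal (fun ε (hε : 0 < ε) => h _ (fun j => by positivity) fun j k e => by
      have e' : ε * (j.val : ℝ) = ε * (k.val : ℝ) := add_left_cancel e
      exact Fin.ext (by exact_mod_cast mul_left_cancel₀ hε.ne' e'))
    (isClosed_eq h2 (continuous_const (y := (0 : ℝ)))) h3
  have h5 : dl X (fun j : Fin n => 1 + 0 * (j.val : ℝ)) g = 0 := h4
  simp only [zero_mul, add_zero] at h5
  exact h5

/-- prescribed labels on the two sides of a cut are independent under the gap condition -/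
theorem factor {π : Equiv.Perm (Fin n) → ℝ} (hπ : Stat π) (h1 : ∑ σ, π σ = 1)
    (S T : Finset (Fin n)) (i : Fin n → Fin n)
    (h : ∀ p ∈ S, ∀ q ∈ T, p < q ∧ (i p).val + 1 + (univ.filter fun z => p < z ∧ z < q ∧
      (z ∉ S ∪ T ∨ (i p < i z ∧ i z < i q))).card < (i q).val) :
    ∑ σ ∈ univ.filter (fun σ : Equiv.Perm (Fin n) => ∀ p ∈ S ∪ T, σ p = i p), π σ =
      (∑ σ ∈ univ.filter (fun σ : Equiv.Perm (Fin n) => ∀ p ∈ S, σ p = i p), π σ) *
        ∑ σ ∈ univ.filter (fun σ : Equiv.Perm (Fin n) => ∀ p ∈ T, σ p = i p), π σ := by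
  rcases S.eq_empty_or_nonempty with rfl | hS
  · simp [h1]
  rcases T.eq_empty_or_nonempty with rfl | hT
  · simp [h1]
  by_cases hi : ∃ q ∈ T, ∃ z ∈ T, i q = i z ∧ q ≠ z
  · obtain ⟨q, a1, z, a2, a3, a4⟩ := hi
    have e : ∀ U : Finset (Fin n), T ⊆ U →
        univ.filter (fun σ : Equiv.Perm (Fin n) => ∀ p ∈ U, σ p = i p) = ∅ := fun U hU =>
      filter_eq_empty_iff.2 fun σ _ e => a4 (σ.injective (by rw [e q (hU a1), e z (hU a2), a3]))
    rw [e _ subset_union_right, e _ (Subset.refl _), sum_empty, mul_zero]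
  push Not at hi
  obtain ⟨s, hs, hs'⟩ := exists_min_image T Fin.val hT
  obtain ⟨p, hp, hp'⟩ := exists_max_image S (fun p => (i p).val + 2 + (univ.filter fun z : Fin n =>
    p < z ∧ z.val < s.val ∧ (z ∉ S ∨ (i p).val < (i z).val)).card) hS
  have hn : 2 ≤ n := by
    have := Fin.lt_def.1 (h p hp s hs).1
    omega
  have hG : Gap S (fun p => (i p).val) s _ := fun y hy => ⟨(h y hy s hs).1, hp' y hy⟩
  have key : dl (iX S fun p => (i p).val) 1
      (fun F => ∏ q ∈ T, (hh F q (i q) - hh F q (i q + 1))) = 0 := dl_one fun x hx hx' => by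
    rw [sup_dl _ x _ (∑ t ∈ T.powerset, (-1 : ℝ) ^ t.card • iC fun z =>
      if z ∈ t then (i z).val + 1 else if z ∈ T then (i z).val else 0) fun F hF => ?_, map_sum]
    · refine sum_eq_zero fun t ht => ?_
      rw [mem_powerset] at ht
      rw [map_smul, dl_zero hn hG n _ _ rfl (fun q hq => ?_) (fun q e => absurd q.isLt (by omega))
        x hx hx', smul_zero]
      have q1 : q ∈ T := by
        by_contra e
        exact hq (by simp only [if_neg e, if_neg fun e' => e (ht e')])
      refine ⟨hs' q q1, le_trans ?_ (show (i q).val ≤ _ by simp only [if_pos q1]; split_ifs <;> omega)⟩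
      refine le_trans ?_ (h p hp q q1).2
      rw [cnt, add_assoc, ← card_union_of_disjoint (disjoint_filter.2 fun z _ e1 e2 => by omega)]
      refine le_trans (Nat.add_le_add_left (card_le_card fun z hz => ?_) _)
        (Nat.add_right_comm _ 1 _).le
      have p1 := Fin.lt_def.1 (h p hp s hs).1
      have q2 := hs' q q1
      simp only [mem_union, mem_filter, mem_univ, true_and, Fin.lt_def, if_pos q1] at hz ⊢
      rcases hz with ⟨z1, z2, z3⟩ | ⟨z1, z2, z3⟩
      · refine ⟨z1, by omega, ?_⟩
        by_cases e : z ∈ S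
        · have := (h z e q q1).2
          exact Or.inr ⟨z3.resolve_left (not_not.2 e), by omega⟩
        · exact Or.inl (not_or.2 ⟨e, fun e' => by have := hs' z e'; omega⟩)
      · refine ⟨by omega, z2, ?_⟩
        by_cases e : z ∈ T
        · have := (h p hp z e).2
          have : (i z).val ≠ (i q).val := fun e' => by
            rw [hi z e q q1 (Fin.ext e')] at z2; omega
          rw [if_pos e] at z3
          exact Or.inr ⟨by omega, by split_ifs at z3 <;> omega⟩
        · exact Or.inl (not_or.2 ⟨fun e' => by have := Fin.lt_def.1 (h z e' s hs).1; omega, e⟩)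
    · rw [prod_sub, Finset.sum_apply]
      refine sum_congr rfl fun t ht => ?_
      rw [mem_powerset] at ht
      rw [Pi.smul_apply, smul_eq_mul, mul_assoc, iC, ← prod_subset (subset_univ T) fun z _ e => by
        rw [if_neg fun e' => e (ht e'), if_neg e, hh_zero hF], ← prod_sdiff ht]
      congr 2
      · exact prod_congr rfl fun z hz => by
          rw [if_neg (mem_sdiff.1 hz).2, if_pos (mem_sdiff.1 hz).1]
      · exact prod_congr rfl fun z hz => by rw [if_pos hz]
  obtain ⟨Z, hZ, e⟩ := mlq_one hπ h1 le_rfl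
  have e1 : ∀ σ : Equiv.Perm (Fin n), iX S (fun p => (i p).val) (fun c => lev σ (min c n)) =
      if ∀ p ∈ S, σ p = i p then 1 else 0 := fun σ => by
    classical
    refine if_congr (forall₂_congr fun p _ => ?_) rfl rfl
    have := (i p).isLt
    simp only [mem_lev, Fin.ext_iff]
    omega
  have e2 : ∀ σ : Equiv.Perm (Fin n), ∏ q ∈ T, (hh (fun c => lev σ (min c n)) q (i q) -
      hh (fun c => lev σ (min c n)) q (i q + 1)) = if ∀ p ∈ T, σ p = i p then 1 else 0 := fun σ => by
    refine (prod_congr rfl fun q _ => ?_).trans ((prod_boole (s := T)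
      (p := fun p => σ p = i p)).trans (by congr))
    have := (i q).isLt
    simp only [hh, mem_lev, Fin.ext_iff]
    split_ifs <;> first | omega | simp
  simp only [dl_apply, e, e1, e2, Pi.one_apply, mul_one, h1] at key
  simp only [sum_filter, forall_mem_union]
  refine mul_left_cancel₀ (mul_pos hZ hZ).ne' ?_
  simp only [mul_ite, mul_one, mul_zero, ← ite_and, and_comm] at key ⊢
  linear_combination key

end Pool.Agent.P.MP_9492fd_pr
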