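import Pool.Agent.P.MP_9492fd_pr.Move

set_option autoImplicit false

open Finset

namespace Pool.Agent.P.MP_9492fd_pr

variable {n : ℕ}

/-- sites carrying a species below `k` -/
def lev (σ : Equiv.Perm (Fin n)) (k : ℕ) : Finset (Fin n) :=
  Finset.univ.filter (fun p => (σ p).val < k)

lemma mem_lev {σ : Equiv.Perm (Fin n)} {k : ℕ} {p : Fin n} : p ∈ lev σ k ↔ (σ p).val < k := by
  simp [lev]

lemma card_lev (σ : Equiv.Perm (Fin n)) {k : ℕ} (hk : k ≤ n) : (lev σ k).card = k := by
  have : lev σ k = (seg n k).map σ.symm.toEmbedding := by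
    ext p
    rw [Finset.mem_map_equiv, mem_lev]
    simp [seg]
  rw [this, Finset.card_map, card_seg hk]

lemma lev_mono (σ : Equiv.Perm (Fin n)) {k l : ℕ} (h : k ≤ l) : lev σ k ⊆ lev σ l := by
  intro p hp
  rw [mem_lev] at hp ⊢
  omega

/-- the move on permutations -/
def mv (a : Fin n) (σ : Equiv.Perm (Fin n)) : Equiv.Perm (Fin n) :=
  if σ (finRotate n a) < σ a then σ * Equiv.swap a (finRotate n a) else σ

lemma lev_mv (a : Fin n) (σ : Equiv.Perm (Fin n)) (k : ℕ) : lev (mv a σ) k = tau a (lev σ k) := by
  ext i
  by_cases hia : i = a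
  · subst hia
    rw [mem_tau_self, mem_lev, mem_lev, mem_lev]
    unfold mv
    split_ifs with h
    · rw [Equiv.Perm.mul_apply, Equiv.swap_apply_left]
      rw [Fin.lt_def] at h
      omega
    · rw [Fin.lt_def] at h
      omega
  · by_cases hib : i = finRotate n a
    · subst hib
      rw [mem_tau_next, mem_lev, mem_lev, mem_lev]
      unfold mv
      split_ifs with h
      · rw [Equiv.Perm.mul_apply, Equiv.swap_apply_right]
        rw [Fin.lt_def] at h
        omega
      · rw [Fin.lt_def] at h
        omega
    · rw [mem_tau_other hia hib, mem_lev, mem_lev]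
      unfold mv
      split_ifs with h
      · rw [Equiv.Perm.mul_apply, Equiv.swap_apply_of_ne_of_ne hia hib]
      · rfl

/-- stationarity in functional form -/
def Stat (π : Equiv.Perm (Fin n) → ℝ) : Prop :=
  ∀ g : Equiv.Perm (Fin n) → ℝ, ∑ σ, π σ * ∑ a, g (mv a σ) = (n : ℝ) * ∑ σ, π σ * g σ

lemma stat_of_balance (π : Equiv.Perm (Fin n) → ℝ)
    (h : ∀ σ : Equiv.Perm (Fin n),
        (∑ k : Fin n, (if σ (finRotate n k) < σ k then π σ else 0)) =
          ∑ k : Fin n, (if σ k < σ (finRotate n k)
            then π (σ * Equiv.swap k (finRotate n k)) else 0)) : Stat π := by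
  intro g
  have e1 : ∀ σ a, π σ * g (mv a σ) = π σ * g σ
      + (if σ (finRotate n a) < σ a then π σ * g (σ * Equiv.swap a (finRotate n a)) else 0)
      - (if σ (finRotate n a) < σ a then π σ else 0) * g σ := by
    intro σ a
    unfold mv
    split_ifs <;> ring
  have e2 : ∀ a : Fin n, ∑ σ : Equiv.Perm (Fin n),
      (if σ (finRotate n a) < σ a then π σ * g (σ * Equiv.swap a (finRotate n a)) else 0)
      = ∑ σ : Equiv.Perm (Fin n), (if σ a < σ (finRotate n a)
            then π (σ * Equiv.swap a (finRotate n a)) else 0) * g σ := by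
    intro a
    rw [← Equiv.sum_comp (Equiv.mulRight (Equiv.swap a (finRotate n a)))]
    apply Finset.sum_congr rfl
    intro σ _
    simp only [Equiv.coe_mulRight, Equiv.Perm.mul_apply, Equiv.swap_apply_left,
      Equiv.swap_apply_right, mul_assoc, Equiv.swap_mul_self, mul_one]
    split_ifs <;> ring
  simp only [Finset.mul_sum, e1, Finset.sum_sub_distrib, Finset.sum_add_distrib]
  rw [Finset.sum_comm (f := fun σ a => if σ (finRotate n a) < σ a then
    π σ * g (σ * Equiv.swap a (finRotate n a)) else 0)]
  simp only [e2]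
  rw [Finset.sum_comm (f := fun a σ => (if σ a < σ (finRotate n a)
            then π (σ * Equiv.swap a (finRotate n a)) else 0) * g σ)]
  simp only [← Finset.sum_mul, h]
  simp [mul_assoc]

/-- The Ferrari-Martin step -/
theorem fm_step {π : Equiv.Perm (Fin n) → ℝ} (hπ : Stat π) {K : Type} [Fintype K] (c : K → ℕ)
    {t : ℕ} (ht : t ≤ n) (hc : ∀ k, c k < t) (g : (K → Finset (Fin n)) → Finset (Fin n) → ℝ) :
    (n.choose t : ℝ) * ∑ σ, π σ * g (fun k => lev σ (c k)) (lev σ t)
      = ∑ B ∈ Finset.powersetCard t (Finset.univ : Finset (Fin n)),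
          ∑ σ, π σ * g (fun k => D (lev σ (c k)) B) B := by
  classical
  let Bs := {B : Finset (Fin n) // B.card = t}
  let f : Equiv.Perm (Fin n) → (Option K → Finset (Fin n)) := fun σ k =>
    match k with
    | none => lev σ t
    | some k => lev σ (c k)
  let f' : Bs × Equiv.Perm (Fin n) → (Option K → Finset (Fin n)) := fun y k =>
    match k with
    | none => y.1.1
    | some k => D (lev y.2 (c k)) y.1.1
  let τ : Fin n → (Option K → Finset (Fin n)) → (Option K → Finset (Fin n)) :=
    fun a w k => tau a (w k)
  let w0 : Option K → Finset (Fin n) := fun k =>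
    match k with
    | none => seg n t
    | some k => seg n (c k)
  have hcard : ∀ σ k, (lev σ (c k)).card = c k := fun σ k => card_lev σ ((hc k).le.trans ht)
  have hBs : Fintype.card Bs = n.choose t := by
    simp only [Bs]
    rw [Fintype.card_subtype]
    have : (Finset.univ.filter fun B : Finset (Fin n) => B.card = t)
        = Finset.powersetCard t Finset.univ := by
      ext B
      simp
    rw [this, Finset.card_powersetCard]
    simp
  have main := uniq2 τ (fun σ => (n.choose t : ℝ) * π σ) f (fun y => π y.2) f' (by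
      intro G
      have e : ∀ a σ, τ a (f σ) = f (mv a σ) := by
        intro a σ
        funext k
        cases k <;> simp only [τ, f, lev_mv]
      simp only [e, mul_assoc, ← Finset.mul_sum, Fintype.card_fin]
      rw [hπ (fun σ => G (f σ))]
      ring) (by
      intro G
      let e : Fin n × Bs → Fin n × Bs := fun x =>
        (up x.1 x.2.1, ⟨tau x.1 x.2.1, by rw [card_tau]; exact x.2.2⟩)
      have he : Function.Bijective e := by
        apply Finite.injective_iff_bijective.1
        rintro ⟨a, B⟩ ⟨a', B'⟩ h
        simp only [e, Prod.mk.injEq] at h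
        obtain ⟨h1, h2⟩ := up_tau_inj h.1 (congrArg Subtype.val h.2)
        exact Prod.ext h1 (Subtype.ext h2)
      have e1 : ∀ (a : Fin n) (B : Bs) σ,
          τ a (f' (B, σ)) = f' ((e (a, B)).2, mv (e (a, B)).1 σ) := by
        intro a B σ
        funext k
        cases k with
        | none => simp only [τ, f', e]
        | some k =>
          simp only [τ, f', e, lev_mv]
          rw [D_tau]
          rw [hcard, B.2]
          exact hc k
      rw [Fintype.sum_prod_type_right, Fintype.sum_prod_type, Fintype.card_fin]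
      have e2 : ∀ σ : Equiv.Perm (Fin n), ∑ B : Bs, π σ * ∑ a, G (τ a (f' (B, σ)))
          = ∑ B : Bs, π σ * ∑ a, G (f' (B, mv a σ)) := by
        intro σ
        rw [← Finset.mul_sum, ← Finset.mul_sum, ← Fintype.sum_prod_type_right',
          ← Fintype.sum_prod_type_right']
        congr 1
        apply Fintype.sum_bijective e he
        rintro ⟨a, B⟩
        rw [e1]
      simp only [e2]
      rw [Finset.sum_comm, Finset.mul_sum]
      apply Finset.sum_congr rfl
      intro B _
      exact hπ (fun σ => G (f' (B, σ)))) w0 (by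
      intro σ
      have h := reach (f σ)
      have : (fun k => seg n (f σ k).card) = w0 := by
        funext k
        cases k with
        | none => simp only [f, w0, card_lev σ ht]
        | some k => simp only [f, w0, hcard]
      rw [this] at h
      exact h) (by
      rintro ⟨B, σ⟩
      have h := reach (f' (B, σ))
      have : (fun k => seg n (f' (B, σ) k).card) = w0 := by
        funext k
        cases k with
        | none => simp only [f', w0, B.2]
        | some k =>
          simp only [f', w0]
          rw [card_D (by rw [hcard, B.2]; exact (hc k).le), hcard]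
      rw [this] at h
      exact h) (by
      rw [Fintype.sum_prod_type]
      simp only [Finset.sum_const, Finset.card_univ, hBs, nsmul_eq_mul, Finset.mul_sum])
      (fun w => g (fun k => w (some k)) (w none))
  simp only [f, f', mul_assoc, ← Finset.mul_sum] at main
  rw [main, Fintype.sum_prod_type]
  symm
  apply Finset.sum_subtype
  intro B
  simp

/-- the event that the first `r` sites carry the word `i`, read on a family of level sets -/
def Ev {r : ℕ} (s : ℕ) (i : Fin r → Fin n) (F : Fin (s + 1) → Finset (Fin n)) : Prop :=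
  ∀ p : Fin n, ∀ a : Fin r, p.val = a.val → ∀ k : Fin (s + 1), (p ∈ F k ↔ (i a).val < k.val)

lemma Ev_lev {r s : ℕ} {i : Fin r → Fin n} (hi : ∀ a, (i a).val < s) (σ : Equiv.Perm (Fin n)) :
    Ev s i (fun k => lev σ k.val) ↔ ∀ p : Fin n, ∀ a : Fin r, p.val = a.val → σ p = i a := by
  constructor
  · intro h p a hpa
    have h1 := h p a hpa ⟨(i a).val, by have := hi a; omega⟩
    have h2 := h p a hpa ⟨(i a).val + 1, by have := hi a; omega⟩
    simp only [mem_lev] at h1 h2
    apply Fin.ext
    omega
  · intro h p a hpa k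
    simp only [mem_lev, h p a hpa]

lemma Ev_insert {s : ℕ} {r : Fin n} {i : Fin r.val → Fin n} (hi : ∀ a, (i a).val < s)
    (σ : Equiv.Perm (Fin n)) {B : Finset (Fin n)} (hr : r ∉ B) (hB : s < B.card) :
    Ev s i (fun k => D (lev σ k.val) B) ↔ Ev s i (fun k => D (lev σ k.val) (insert r B)) := by
  have hBn : B.card ≤ n := by
    have := Finset.card_le_univ B
    simpa using this
  have hc : (lev σ s).card < B.card := by rw [card_lev σ (by omega)]; exact hB
  have key : (∃ j : Fin n, r.val < j.val ∧ j ∈ B ∧ j ∉ D (lev σ s) (insert r B)) →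
      (Ev s i (fun k => D (lev σ k.val) B) ↔ Ev s i (fun k => D (lev σ k.val) (insert r B))) := by
    rintro ⟨j, h1, h2, h3⟩
    have ag : ∀ (k : Fin (s + 1)) (p : Fin n), p.val < r.val →
        (p ∈ D (lev σ k.val) B ↔ p ∈ D (lev σ k.val) (insert r B)) := fun k p hp =>
      D_agree hr (lev_mono σ (by have := k.isLt; omega)) hc h1 h2 h3 p hp
    constructor
    · intro h p a hpa k
      rw [← h p a hpa k]
      exact (ag k p (by have := a.isLt; omega)).symm
    · intro h p a hpa k
      rw [← h p a hpa k]
      exact (ag k p (by have := a.isLt; omega))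
  constructor
  · intro h
    apply (key (exists_late_of_base hr hc ?_)).1 h
    intro p hp
    exact (h p ⟨p.val, hp⟩ rfl (Fin.last s)).2 (hi _)
  · intro h
    apply (key (exists_late_of_insert hr hc ?_)).2 h
    intro p hp
    exact (h p ⟨p.val, hp⟩ rfl (Fin.last s)).2 (hi _)

open Classical in
/-- independence of the next site being above level `t` -/
theorem tail_prob {π : Equiv.Perm (Fin n) → ℝ} (hπ : Stat π) {s : ℕ} {r : Fin n}
    {i : Fin r.val → Fin n} (hi : ∀ a, (i a).val < s) {t : ℕ} (hst : s < t) (ht : t ≤ n) :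
    (n : ℝ) * ∑ σ, π σ * (if (∀ p : Fin n, ∀ a : Fin r.val, p.val = a.val → σ p = i a)
        ∧ t ≤ (σ r).val then 1 else 0)
      = ((n : ℝ) - t) * ∑ σ, π σ * (if (∀ p : Fin n, ∀ a : Fin r.val, p.val = a.val → σ p = i a)
        then 1 else 0) := by
  set P : ℝ := ∑ σ, π σ * (if (∀ p : Fin n, ∀ a : Fin r.val, p.val = a.val → σ p = i a)
        then 1 else 0) with hP
  let W : Finset (Fin n) → ℝ := fun B =>
    ∑ σ, π σ * (if Ev s i (fun k => D (lev σ k.val) B) then 1 else 0)
  let N : ℕ → ℝ := fun t =>
    ∑ B ∈ (Finset.powersetCard t (Finset.univ : Finset (Fin n))).filter (fun B => r ∉ B), W B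
  let M : ℕ → ℝ := fun t =>
    ∑ B ∈ (Finset.powersetCard t (Finset.univ : Finset (Fin n))).filter (fun B => r ∈ B), W B
  have hNM : ∀ t, s < t → t ≤ n → M t + N t = (n.choose t : ℝ) * P := by
    intro t hst ht
    have := fm_step hπ (K := Fin (s + 1)) (fun k => k.val) ht
      (fun k => by have := k.isLt; omega) (fun F _ => if Ev s i F then 1 else 0)
    simp only [Ev_lev hi] at this
    rw [hP, this]
    exact Finset.sum_filter_add_sum_filter_not _ _ _
  have hshift : ∀ t, s < t → N t = M (t + 1) := by
    intro t hst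
    refine Finset.sum_bij' (fun B _ => insert r B) (fun B _ => B.erase r) ?_ ?_ ?_ ?_ ?_
    · intro B hB
      simp only [Finset.mem_filter, Finset.mem_powersetCard, Finset.subset_univ, true_and] at hB ⊢
      rw [Finset.card_insert_of_notMem hB.2, hB.1]
      simp
    · intro B hB
      simp only [Finset.mem_filter, Finset.mem_powersetCard, Finset.subset_univ, true_and] at hB ⊢
      rw [Finset.card_erase_of_mem hB.2, hB.1]
      simp
    · intro B hB
      simp only [Finset.mem_filter] at hB
      exact Finset.erase_insert hB.2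
    · intro B hB
      simp only [Finset.mem_filter] at hB
      exact Finset.insert_erase hB.2
    · intro B hB
      simp only [Finset.mem_filter, Finset.mem_powersetCard, Finset.subset_univ, true_and] at hB
      simp only [W]
      apply Finset.sum_congr rfl
      intro σ _
      simp only [Ev_insert hi σ hB.2 (by omega)]
  obtain ⟨m, rfl⟩ : ∃ m, n = m + 1 := ⟨n - 1, by have := r.pos; omega⟩
  have hN : ∀ d t, s < t → t + d = m + 1 → N t = (m.choose t : ℝ) * P := by
    intro d
    induction d with
    | zero =>
      intro t _ htd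
      have ht : t = m + 1 := by omega
      subst ht
      rw [Nat.choose_succ_self]
      simp only [N, Nat.cast_zero, zero_mul]
      apply Finset.sum_eq_zero
      intro B hB
      exfalso
      simp only [Finset.mem_filter, Finset.mem_powersetCard, Finset.subset_univ, true_and] at hB
      have : B = Finset.univ := Finset.eq_univ_of_card _ (by simpa using hB.1)
      exact hB.2 (this ▸ Finset.mem_univ _)
    | succ d ih =>
      intro t hst htd
      have h1 := ih (t + 1) (by omega) (by omega)
      have h2 := hNM (t + 1) (by omega) (by omega)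
      rw [hshift t hst]
      rw [Nat.choose_succ_succ] at h2
      push_cast at h2
      linarith
  have h1 := hN (m + 1 - t) t hst (by omega)
  have h2 := fm_step hπ (K := Fin (s + 1)) (fun k => k.val) ht
      (fun k => by have := k.isLt; omega) (fun F B => if Ev s i F ∧ r ∉ B then 1 else 0)
  simp only [Ev_lev hi, mem_lev, not_lt] at h2
  have h3 : ∑ B ∈ Finset.powersetCard t (Finset.univ : Finset (Fin (m + 1))),
      ∑ σ, π σ * (if Ev s i (fun k => D (lev σ k.val) B) ∧ r ∉ B then (1 : ℝ) else 0) = N t := by
    simp only [N]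
    rw [Finset.sum_filter]
    apply Finset.sum_congr rfl
    intro B _
    by_cases hB : r ∈ B
    · simp [hB]
    · simp [hB, W]
  rw [h3, h1] at h2
  have h4 : (m.choose t : ℝ) * ((m : ℝ) + 1) = ((m + 1).choose t : ℝ) * ((m : ℝ) + 1 - t) := by
    have := Nat.choose_mul_succ_eq m t
    have h5 : ((m + 1 - t : ℕ) : ℝ) = (m : ℝ) + 1 - t := by
      rw [Nat.cast_sub ht]
      push_cast
      ring
    rw [← h5]
    exact_mod_cast this
  have h6 : (0 : ℝ) < ((m + 1).choose t : ℝ) := by exact_mod_cast Nat.choose_pos ht
  apply mul_left_cancel₀ h6.ne'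
  push_cast
  rw [mul_left_comm, h2, ← mul_assoc, ← mul_assoc, ← h4]
  ring

open Classical in
theorem tail_prob' {π : Equiv.Perm (Fin n) → ℝ} (hπ : Stat π) {r : Fin n}
    {i : Fin r.val → Fin n} {t : ℕ} (hi : ∀ a, (i a).val + 1 < t) (ht : t ≤ n) :
    (n : ℝ) * ∑ σ, π σ * (if (∀ p : Fin n, ∀ a : Fin r.val, p.val = a.val → σ p = i a)
        ∧ t ≤ (σ r).val then 1 else 0)
      = ((n : ℝ) - t) * ∑ σ, π σ * (if (∀ p : Fin n, ∀ a : Fin r.val, p.val = a.val → σ p = i a)
        then 1 else 0) := by
  rcases Nat.eq_zero_or_pos t with h | h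
  · subst h
    simp
  · exact tail_prob hπ (s := t - 1) (fun a => by have := hi a; omega) (by omega) ht

open Classical in
/-- a label exceeding all earlier labels by at least two is uniform and independent -/
theorem next_prob {π : Equiv.Perm (Fin n) → ℝ} (hπ : Stat π) {r : Fin n}
    {i : Fin r.val → Fin n} {k : Fin n} (hi : ∀ a, (i a).val + 1 < k.val) :
    (n : ℝ) * ∑ σ, π σ * (if (∀ p : Fin n, ∀ a : Fin r.val, p.val = a.val → σ p = i a)
        ∧ σ r = k then 1 else 0)
      = ∑ σ, π σ * (if (∀ p : Fin n, ∀ a : Fin r.val, p.val = a.val → σ p = i a)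
        then 1 else 0) := by
  have h1 := tail_prob' hπ (t := k.val) hi k.isLt.le
  have h2 := tail_prob' hπ (i := i) (t := k.val + 1) (fun a => by have := hi a; omega) k.isLt
  have h3 : ∀ σ : Equiv.Perm (Fin n),
      π σ * (if (∀ p : Fin n, ∀ a : Fin r.val, p.val = a.val → σ p = i a)
        ∧ σ r = k then (1 : ℝ) else 0)
      = π σ * (if (∀ p : Fin n, ∀ a : Fin r.val, p.val = a.val → σ p = i a)
        ∧ k.val ≤ (σ r).val then 1 else 0)
        - π σ * (if (∀ p : Fin n, ∀ a : Fin r.val, p.val = a.val → σ p = i a)
        ∧ k.val + 1 ≤ (σ r).val then 1 else 0) := by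
    intro σ
    by_cases hU : ∀ p : Fin n, ∀ a : Fin r.val, p.val = a.val → σ p = i a
    · by_cases h4 : (σ r).val < k.val
      · rw [if_neg (fun hh => by have := congrArg Fin.val hh.2; omega),
          if_neg (fun hh => by have := hh.2; omega), if_neg (fun hh => by have := hh.2; omega)]
        ring
      · by_cases h5 : (σ r).val = k.val
        · rw [if_pos ⟨hU, Fin.ext h5⟩, if_pos ⟨hU, by omega⟩,
            if_neg (fun hh => by have := hh.2; omega)]
          ring
        · rw [if_neg (fun hh => h5 (congrArg Fin.val hh.2)), if_pos ⟨hU, by omega⟩,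
            if_pos ⟨hU, by omega⟩]
          ring
    · rw [if_neg (fun hh => hU hh.1), if_neg (fun hh => hU hh.1), if_neg (fun hh => hU hh.1)]
      ring
  simp only [h3, Finset.sum_sub_distrib, mul_sub, h1, h2]
  push_cast
  ring

open Classical in
theorem main {π : Equiv.Perm (Fin n) → ℝ} (hπ : Stat π) (hsum : ∑ σ, π σ = 1) :
    ∀ r : ℕ, r ≤ n → ∀ i : Fin r → Fin n,
      (∀ a b : Fin r, a.val + 1 = b.val → (i a).val + 1 < (i b).val) →
      ∑ σ, π σ * (if (∀ p : Fin n, ∀ a : Fin r, p.val = a.val → σ p = i a) then 1 else 0)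
        = 1 / (n : ℝ) ^ r := by
  intro r
  induction r with
  | zero =>
    intro _ i _
    simp [hsum]
  | succ r ih =>
    intro hr i hi
    have hmono : ∀ d : ℕ, ∀ a b : Fin (r + 1), a.val + 1 + d = b.val → (i a).val + 1 < (i b).val := by
      intro d
      induction d with
      | zero => intro a b h; exact hi a b h
      | succ d ihd =>
        intro a b h
        have hb := b.isLt
        have h1 := ihd a ⟨a.val + 1 + d, by omega⟩ rfl
        have h2 := hi ⟨a.val + 1 + d, by omega⟩ b (by simp only; omega)
        omega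
    have h1 := ih (by omega) (fun a => i a.castSucc) (fun a b hab => hi _ _ (by simpa using hab))
    have h2 := next_prob hπ (r := ⟨r, by omega⟩) (i := fun a => i (Fin.castSucc a))
      (k := i (Fin.last r)) (fun a => hmono (r - (a.val + 1)) _ _ (by
        have : a.val < r := a.isLt
        simp only [Fin.val_castSucc, Fin.val_last]
        omega))
    have h3 : ∀ σ : Equiv.Perm (Fin n),
        (∀ p : Fin n, ∀ a : Fin (r + 1), p.val = a.val → σ p = i a) ↔
        ((∀ p : Fin n, ∀ a : Fin r, p.val = a.val → σ p = i a.castSucc)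
          ∧ σ ⟨r, by omega⟩ = i (Fin.last r)) := by
      intro σ
      constructor
      · intro h
        exact ⟨fun p a hpa => h p _ (by simpa using hpa), h _ _ (by simp)⟩
      · rintro ⟨h, h'⟩ p a hpa
        rcases Fin.eq_castSucc_or_eq_last a with ⟨a', rfl⟩ | rfl
        · exact h p a' (by simpa using hpa)
        · have : p = ⟨r, by omega⟩ := Fin.ext (by simpa using hpa)
          rw [this]
          exact h'
    have hn : (0 : ℝ) < n := by exact_mod_cast (by omega : 0 < n)
    simp only [h3]
    apply mul_left_cancel₀ hn.ne'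
    rw [h2]
    convert h1 using 1
    field_simp
    ring

end Pool.Agent.P.MP_9492fd_pr
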