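import Pool.Agent.P.MP_9492fd_pr.Queue

set_option autoImplicit false

open Finset

namespace Pool.Agent.P.MP_9492fd_pr

variable {n : ℕ}

/-- the exclusion move at the bond `(a, a+1)` acting on a set of occupied sites -/
def tau (a : Fin n) (S : Finset (Fin n)) : Finset (Fin n) :=
  if a ∉ S ∧ finRotate n a ∈ S then S.map (Equiv.swap a (finRotate n a)).toEmbedding else S

lemma card_tau (a : Fin n) (S : Finset (Fin n)) : (tau a S).card = S.card := by
  unfold tau
  split_ifs
  · exact Finset.card_map _
  · rfl

lemma mem_tau_self {a : Fin n} {S : Finset (Fin n)} :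
    a ∈ tau a S ↔ a ∈ S ∨ finRotate n a ∈ S := by
  unfold tau
  split_ifs with h
  · rw [Finset.mem_map_equiv, Equiv.symm_swap, Equiv.swap_apply_left]
    tauto
  · tauto

lemma mem_tau_next {a : Fin n} {S : Finset (Fin n)} :
    finRotate n a ∈ tau a S ↔ a ∈ S ∧ finRotate n a ∈ S := by
  unfold tau
  split_ifs with h
  · rw [Finset.mem_map_equiv, Equiv.symm_swap, Equiv.swap_apply_right]
    tauto
  · tauto

lemma mem_tau_other {a i : Fin n} {S : Finset (Fin n)} (h1 : i ≠ a) (h2 : i ≠ finRotate n a) :
    i ∈ tau a S ↔ i ∈ S := by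
  unfold tau
  split_ifs with h
  · rw [Finset.mem_map_equiv, Equiv.symm_swap, Equiv.swap_apply_of_ne_of_ne h1 h2]
  · rfl

lemma tau_of_not_mem {a : Fin n} {S : Finset (Fin n)} (h : finRotate n a ∉ S) : tau a S = S := by
  unfold tau
  rw [if_neg (by tauto)]

lemma tau_of_mem {a : Fin n} {S : Finset (Fin n)} (h : a ∈ S) : tau a S = S := by
  unfold tau
  rw [if_neg (by tauto)]

lemma ind_tau_other {a i : Fin n} {S : Finset (Fin n)} (h1 : i ≠ a) (h2 : i ≠ finRotate n a) :
    ind (tau a S) i = ind S i := by
  unfold ind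
  simp only [mem_tau_other h1 h2]

/-- arrivals moved onto a time without service do not change the departures -/
lemma D_tau_of_not_mem {S B : Finset (Fin n)} (hc : S.card < B.card) {b : Fin n} (hb : b ∉ B) :
    D (tau b S) B = D S B := by
  by_cases h : b ∉ S ∧ finRotate n b ∈ S
  swap
  · unfold tau
    rw [if_neg h]
  obtain ⟨h1, h2⟩ := h
  have hne : b ≠ finRotate n b := fun hh => h1 (hh ▸ h2)
  set q := Q S B with hq
  have hI : IsQ S B q := isQ_Q hc.le
  let q' : Fin n → ℕ := Function.update q (finRotate n b) (q (finRotate n b) + 1)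
  have e1 : ind (tau b S) b = 1 := ind_of_mem (mem_tau_self.2 (Or.inr h2))
  have e2 : ind (tau b S) (finRotate n b) = 0 := ind_of_not_mem (fun hh => h1 (mem_tau_next.1 hh).1)
  have e3 : ind S b = 0 := ind_of_not_mem h1
  have e4 : ind S (finRotate n b) = 1 := ind_of_mem h2
  have e5 : ind B b = 0 := ind_of_not_mem hb
  have f1 : q' (finRotate n b) = q (finRotate n b) + 1 := by simp [q']
  have f2 : ∀ i, i ≠ finRotate n b → q' i = q i := by
    intro i hi
    simp only [q']
    rw [Function.update_of_ne hi]
  have hI' : IsQ (tau b S) B q' := by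
    intro i
    have hi := hI i
    by_cases hib : i = b
    · subst hib
      rw [f1, f2 i hne]
      omega
    · have hne2 : finRotate n i ≠ finRotate n b := fun hh => hib ((finRotate n).injective hh)
      rw [f2 _ hne2]
      by_cases hib2 : i = finRotate n b
      · subst hib2
        rw [f1]
        omega
      · rw [f2 _ hib2, ind_tau_other hib hib2]
        exact hi
  have hQ : Q (tau b S) B = q' := Q_eq hI' (by rw [card_tau]; exact hc)
  ext i
  rw [mem_D, mem_D, hQ, ← hq]
  by_cases hib : i = b
  · subst hib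
    simp [hb]
  · by_cases hib2 : i = finRotate n b
    · subst hib2
      rw [f1, e2, e4]
    · rw [f2 _ hib2, ind_tau_other hib hib2]

lemma D_tau_of_mem {S B : Finset (Fin n)} (hc : S.card < B.card) {a : Fin n}
    (hb : finRotate n a ∈ B) : D (tau a S) (tau a B) = tau a (D S B) := by
  by_cases hne : a = finRotate n a
  · have : ∀ X : Finset (Fin n), tau a X = X := by
      intro X
      unfold tau
      rw [if_neg]
      rw [← hne]
      tauto
    rw [this, this, this]
  set b := finRotate n a with hbdef
  set q := Q S B with hq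
  have hI : IsQ S B q := isQ_Q hc.le
  let q' : Fin n → ℕ := Function.update q b (q a + ind (tau a S) a - 1)
  have f1 : q' b = q a + ind (tau a S) a - 1 := by simp [q']
  have f2 : ∀ i, i ≠ b → q' i = q i := by
    intro i hi
    simp only [q']
    rw [Function.update_of_ne hi]
  have e1 : ind (tau a B) a = 1 := ind_of_mem (mem_tau_self.2 (Or.inr hb))
  have e2 : ind (tau a B) b = ind B a := by
    unfold ind
    have : b ∈ tau a B ↔ a ∈ B := by
      rw [hbdef, mem_tau_next]
      tauto
    simp only [this]
  have e3 : ind B b = 1 := ind_of_mem hb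
  have e4 : ind (tau a S) a = max (ind S a) (ind S b) := by
    unfold ind
    simp only [mem_tau_self, ← hbdef]
    by_cases h1 : a ∈ S <;> by_cases h2 : b ∈ S <;> simp [h1, h2]
  have e5 : ind (tau a S) b = min (ind S a) (ind S b) := by
    unfold ind
    have : b ∈ tau a S ↔ a ∈ S ∧ b ∈ S := by
      rw [hbdef, mem_tau_next]
    simp only [this]
    by_cases h1 : a ∈ S <;> by_cases h2 : b ∈ S <;> simp [h1, h2]
  have g1 := ind_le S a
  have g2 := ind_le S b
  have g3 := ind_le B a
  have ha : q b = q a + ind S a - ind B a := hI a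
  have hI' : IsQ (tau a S) (tau a B) q' := by
    intro i
    have hi := hI i
    by_cases hia : i = a
    · subst hia
      rw [← hbdef, f1, f2 i hne]
      omega
    · have hne2 : finRotate n i ≠ b := fun hh => hia ((finRotate n).injective hh)
      rw [f2 _ hne2]
      by_cases hib2 : i = b
      · subst hib2
        rw [f1]
        omega
      · rw [f2 _ hib2, ind_tau_other hia hib2, ind_tau_other hia hib2]
        exact hi
  have hQ : Q (tau a S) (tau a B) = q' := Q_eq hI' (by rw [card_tau, card_tau]; exact hc)
  ext i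
  rw [mem_D, hQ]
  by_cases hia : i = a
  · subst hia
    rw [mem_tau_self, mem_tau_self, mem_D, mem_D, ← hq, ← hbdef, f2 i hne]
    by_cases h1 : i ∈ B
    · have := ind_of_mem h1
      simp only [h1, hb, true_and, true_or]
      omega
    · have := ind_of_not_mem h1
      simp only [h1, hb, true_and, false_and, false_or]
      omega
  · by_cases hib2 : i = b
    · subst hib2
      rw [hbdef, mem_tau_next, mem_tau_next, mem_D, mem_D, ← hq, ← hbdef, f1]
      by_cases h1 : a ∈ B
      · have := ind_of_mem h1
        simp only [h1, hb, true_and]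
        omega
      · simp only [h1, false_and]
    · rw [mem_tau_other hia hib2, mem_tau_other hia hib2, mem_D, ← hq, f2 _ hib2,
        ind_tau_other hia hib2]

/-- the bond at which the arrivals move -/
def up (a : Fin n) (B : Finset (Fin n)) : Fin n := if finRotate n a ∈ B then a else finRotate n a

lemma D_tau {S B : Finset (Fin n)} (hc : S.card < B.card) (a : Fin n) :
    D (tau (up a B) S) (tau a B) = tau a (D S B) := by
  unfold up
  split_ifs with h
  · exact D_tau_of_mem hc h
  · rw [tau_of_not_mem h, D_tau_of_not_mem hc h, tau_of_not_mem (fun hh => h (D_subset _ _ hh))]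

lemma up_tau_inj {a a' : Fin n} {B B' : Finset (Fin n)} (h1 : up a B = up a' B')
    (h2 : tau a B = tau a' B') : a = a' ∧ B = B' := by
  have key : ∀ (a : Fin n) (B : Finset (Fin n)), up a B ∈ tau a B ↔ finRotate n a ∈ B := by
    intro a B
    unfold up
    split_ifs with h
    · rw [mem_tau_self]; tauto
    · rw [tau_of_not_mem h]
  have h3 : finRotate n a ∈ B ↔ finRotate n a' ∈ B' := by
    rw [← key, ← key, h1, h2]
  by_cases h : finRotate n a ∈ B
  · have h' := h3.1 h
    unfold up at h1
    rw [if_pos h, if_pos h'] at h1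
    subst h1
    refine ⟨rfl, ?_⟩
    ext i
    by_cases hia : i = a
    · subst hia
      have e1 : finRotate n i ∈ tau i B ↔ finRotate n i ∈ tau i B' := by rw [h2]
      rw [mem_tau_next, mem_tau_next] at e1
      tauto
    · by_cases hib : i = finRotate n a
      · subst hib
        tauto
      · rw [← mem_tau_other (S := B) hia hib, ← mem_tau_other (S := B') hia hib, h2]
  · have h' : finRotate n a' ∉ B' := fun hh => h (h3.2 hh)
    unfold up at h1
    rw [if_neg h, if_neg h'] at h1
    rw [tau_of_not_mem h, tau_of_not_mem h'] at h2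
    exact ⟨(finRotate n).injective h1, h2⟩

/-- initial segment -/
def seg (n c : ℕ) : Finset (Fin n) := Finset.univ.filter (fun i => i.val < c)

lemma card_seg {c : ℕ} (hc : c ≤ n) : (seg n c).card = c := by
  unfold seg
  rw [Fin.card_filter_val_lt]
  omega

lemma eq_seg_of_fixed {S : Finset (Fin n)}
    (h : ∀ a : Fin n, a.val + 1 < n → tau a S = S) : S = seg n S.card := by
  have hdown : ∀ k : ℕ, ∀ i j : Fin n, j.val = i.val + k → j ∈ S → i ∈ S := by
    intro k
    induction k with
    | zero =>
      intro i j hij hj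
      have : i = j := Fin.ext (by omega)
      rw [this]; exact hj
    | succ k ih =>
      intro i j hij hj
      have hlt : i.val + 1 < n := by have := j.isLt; omega
      have h1 : finRotate n i ∈ S := by
        apply ih (finRotate n i) j _ hj
        rw [nx_val, if_pos hlt]
        omega
      rw [← h i hlt, mem_tau_self]
      exact Or.inr h1
  have hcn : S.card ≤ n := by
    have := Finset.card_le_univ S
    simpa using this
  apply Finset.eq_of_subset_of_card_le
  · intro j hj
    simp only [seg, Finset.mem_filter, Finset.mem_univ, true_and]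
    have hsub : seg n (j.val + 1) ⊆ S := by
      intro i hi
      simp only [seg, Finset.mem_filter, Finset.mem_univ, true_and] at hi
      exact hdown (j.val - i.val) i j (by omega) hj
    have := Finset.card_le_card hsub
    rw [card_seg (by have := j.isLt; omega)] at this
    omega
  · rw [card_seg hcn]

lemma sum_tau_lt {S : Finset (Fin n)} {a : Fin n} (ha : a.val + 1 < n) (h : tau a S ≠ S) :
    ∑ i ∈ tau a S, i.val < ∑ i ∈ S, i.val := by
  have h1 : a ∉ S ∧ finRotate n a ∈ S := by
    by_contra hh
    apply h
    unfold tau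
    rw [if_neg hh]
  have hv : (finRotate n a).val = a.val + 1 := by rw [nx_val, if_pos ha]
  unfold tau
  rw [if_pos h1, Finset.sum_map]
  apply Finset.sum_lt_sum
  · intro i hi
    have hia : i ≠ a := fun hh => h1.1 (hh ▸ hi)
    by_cases hib : i = finRotate n a
    · subst hib
      simp only [Equiv.coe_toEmbedding, Equiv.swap_apply_right]
      omega
    · simp only [Equiv.coe_toEmbedding, Equiv.swap_apply_of_ne_of_ne hia hib, le_refl]
  · refine ⟨finRotate n a, h1.2, ?_⟩
    simp only [Equiv.coe_toEmbedding, Equiv.swap_apply_right]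
    omega

lemma sum_tau_le {S : Finset (Fin n)} {a : Fin n} (ha : a.val + 1 < n) :
    ∑ i ∈ tau a S, i.val ≤ ∑ i ∈ S, i.val := by
  by_cases h : tau a S = S
  · rw [h]
  · exact (sum_tau_lt ha h).le

/-- every family of sets can be driven to the family of initial segments -/
lemma reach {K : Type} [Fintype K] (w : K → Finset (Fin n)) :
    Relation.ReflTransGen (fun x y : K → Finset (Fin n) => ∃ a : Fin n, y = fun k => tau a (x k))
      w (fun k => seg n (w k).card) := by
  suffices H : ∀ m : ℕ, ∀ w : K → Finset (Fin n), ∑ k, ∑ i ∈ w k, i.val = m →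
      Relation.ReflTransGen (fun x y : K → Finset (Fin n) => ∃ a : Fin n, y = fun k => tau a (x k))
      w (fun k => seg n (w k).card) from H _ w rfl
  intro m
  induction m using Nat.strong_induction_on with
  | _ m ih =>
    intro w hm
    by_cases h : ∀ k, ∀ a : Fin n, a.val + 1 < n → tau a (w k) = w k
    · have : w = fun k => seg n (w k).card := by
        funext k
        exact eq_seg_of_fixed (h k)
      rw [← this]
    · push Not at h
      obtain ⟨k, a, ha, hk⟩ := h
      have hlt : ∑ k, ∑ i ∈ tau a (w k), i.val < ∑ k, ∑ i ∈ w k, i.val := by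
        apply Finset.sum_lt_sum
        · intro k _
          exact sum_tau_le ha
        · exact ⟨k, Finset.mem_univ _, sum_tau_lt ha hk⟩
      have h2 := ih _ (hm ▸ hlt) (fun k => tau a (w k)) rfl
      simp only [card_tau] at h2
      exact Relation.ReflTransGen.head ⟨a, rfl⟩ h2

/-- uniqueness of a stationary signed measure of total mass zero -/
lemma uniq_aux {Ω A : Type} [Fintype Ω] [Fintype A] (τ : A → Ω → Ω) (ν : Ω → ℝ)
    (hst : ∀ g : Ω → ℝ, ∑ w, ν w * ∑ a, g (τ a w) = (Fintype.card A : ℝ) * ∑ w, ν w * g w)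
    {w w' : Ω} (hw : 0 < ν w) (hr : Relation.ReflTransGen (fun x y => ∃ a, y = τ a x) w w') :
    0 < ν w' := by
  classical
  have closed : ∀ x a, 0 < ν x → 0 < ν (τ a x) := by
    have h1 := hst (fun w => if 0 < ν w then 1 else 0)
    rw [Finset.mul_sum, ← sub_eq_zero, ← Finset.sum_sub_distrib] at h1
    have hle : ∀ x ∈ (Finset.univ : Finset Ω),
        ν x * ∑ a, (if 0 < ν (τ a x) then (1 : ℝ) else 0)
          - (Fintype.card A : ℝ) * (ν x * if 0 < ν x then 1 else 0) ≤ 0 := by
      intro x _
      by_cases hx : 0 < ν x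
      · rw [if_pos hx]
        have : ∑ a, (if 0 < ν (τ a x) then (1 : ℝ) else 0) ≤ ∑ _a : A, (1 : ℝ) := by
          apply Finset.sum_le_sum
          intro a _
          split_ifs <;> norm_num
        simp only [Finset.sum_const, Finset.card_univ, nsmul_eq_mul, mul_one] at this
        nlinarith
      · rw [if_neg hx]
        have : 0 ≤ ∑ a, (if 0 < ν (τ a x) then (1 : ℝ) else 0) := by
          apply Finset.sum_nonneg
          intro a _
          split_ifs <;> norm_num
        push Not at hx
        nlinarith
    have h2 := (Finset.sum_eq_zero_iff_of_nonpos hle).1 h1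
    intro x a hx
    have h3 := h2 x (Finset.mem_univ _)
    rw [if_pos hx] at h3
    by_contra hna
    have : ∑ a, (if 0 < ν (τ a x) then (1 : ℝ) else 0) < ∑ _a : A, (1 : ℝ) := by
      apply Finset.sum_lt_sum
      · intro a _
        split_ifs <;> norm_num
      · refine ⟨a, Finset.mem_univ _, ?_⟩
        rw [if_neg hna]
        norm_num
    simp only [Finset.sum_const, Finset.card_univ, nsmul_eq_mul, mul_one] at this
    nlinarith
  induction hr with
  | refl => exact hw
  | tail _ h ih =>
    obtain ⟨a, rfl⟩ := h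
    exact closed _ _ ih

lemma uniq {Ω A : Type} [Fintype Ω] [Fintype A] (τ : A → Ω → Ω) (ν : Ω → ℝ)
    (hst : ∀ g : Ω → ℝ, ∑ w, ν w * ∑ a, g (τ a w) = (Fintype.card A : ℝ) * ∑ w, ν w * g w)
    (w0 : Ω) (hr : ∀ w, ν w ≠ 0 → Relation.ReflTransGen (fun x y => ∃ a, y = τ a x) w w0)
    (hsum : ∑ w, ν w = 0) : ∀ w, ν w = 0 := by
  have hst' : ∀ g : Ω → ℝ, ∑ w, (-ν w) * ∑ a, g (τ a w)
      = (Fintype.card A : ℝ) * ∑ w, (-ν w) * g w := by
    intro g
    simp only [neg_mul, Finset.sum_neg_distrib, hst g, mul_neg]
  by_cases h0 : 0 < ν w0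
  · have hall : ∀ w ∈ (Finset.univ : Finset Ω), 0 ≤ ν w := by
      intro w _
      by_contra hh
      push Not at hh
      have := uniq_aux τ (fun w => -ν w) hst' (w := w) (by linarith) (hr w hh.ne)
      linarith
    intro w
    exact (Finset.sum_eq_zero_iff_of_nonneg hall).1 hsum w (Finset.mem_univ _)
  · have hall : ∀ w ∈ (Finset.univ : Finset Ω), ν w ≤ 0 := by
      intro w _
      by_contra hh
      push Not at hh
      exact h0 (uniq_aux τ ν hst hh (hr w hh.ne'))
    intro w
    exact (Finset.sum_eq_zero_iff_of_nonpos hall).1 hsum w (Finset.mem_univ _)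

/-- two stationary weighted families with the same mass have the same law -/
lemma uniq2 {Ω A X Y : Type} [Fintype Ω] [Fintype A] [Fintype X] [Fintype Y] (τ : A → Ω → Ω)
    (p : X → ℝ) (f : X → Ω) (p' : Y → ℝ) (f' : Y → Ω)
    (h1 : ∀ g : Ω → ℝ, ∑ x, p x * ∑ a, g (τ a (f x))
      = (Fintype.card A : ℝ) * ∑ x, p x * g (f x))
    (h2 : ∀ g : Ω → ℝ, ∑ y, p' y * ∑ a, g (τ a (f' y))
      = (Fintype.card A : ℝ) * ∑ y, p' y * g (f' y))
    (w0 : Ω) (hr1 : ∀ x, Relation.ReflTransGen (fun x y => ∃ a, y = τ a x) (f x) w0)
    (hr2 : ∀ y, Relation.ReflTransGen (fun x y => ∃ a, y = τ a x) (f' y) w0)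
    (hsum : ∑ x, p x = ∑ y, p' y) (g : Ω → ℝ) :
    ∑ x, p x * g (f x) = ∑ y, p' y * g (f' y) := by
  classical
  let ν : Ω → ℝ := fun w => (∑ x, if f x = w then p x else 0) - ∑ y, if f' y = w then p' y else 0
  have key : ∀ G : Ω → ℝ, ∑ w, ν w * G w = ∑ x, p x * G (f x) - ∑ y, p' y * G (f' y) := by
    intro G
    simp only [ν, sub_mul, Finset.sum_sub_distrib, Finset.sum_mul]
    rw [Finset.sum_comm, Finset.sum_comm (s := Finset.univ (α := Ω))]
    congr 1
    · apply Finset.sum_congr rfl
      intro x _
      simp
    · apply Finset.sum_congr rfl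
      intro y _
      simp
  have hν := uniq τ ν (by
      intro g
      rw [key (fun w => ∑ a, g (τ a w)), key g, h1, h2]
      ring) w0 (by
      intro w hw
      by_contra hh
      apply hw
      have e1 : ∀ x, f x ≠ w := fun x hx => hh (hx ▸ hr1 x)
      have e2 : ∀ y, f' y ≠ w := fun y hy => hh (hy ▸ hr2 y)
      simp [ν, e1, e2]) (by
      have := key (fun _ => 1)
      simp only [mul_one] at this
      rw [this, hsum, sub_self])
  have := key g
  simp only [hν, zero_mul, Finset.sum_const_zero] at this
  linarith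

end Pool.Agent.P.MP_9492fd_pr
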