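import Mathlib

set_option autoImplicit false

open Finset

namespace Pool.Agent.P.MP_9492fd_pr

variable {n : ℕ}

/-- value of the cyclic successor -/
lemma nx_val (i : Fin n) :
    (finRotate n i).val = if i.val + 1 < n then i.val + 1 else 0 := by
  cases n with
  | zero => exact i.elim0
  | succ m =>
    rw [coe_finRotate]
    by_cases h : i = Fin.last m
    · subst h
      simp
    · have h2 : i.val < m := by
        have := Fin.val_lt_last h
        exact this
      rw [if_neg h, if_pos (by omega)]

/-- induction along an arc that wraps around -/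
lemma arc_induction {P : Fin n → Prop} (r j : Fin n) (hj : P j)
    (h : ∀ i : Fin n, (i.val < r.val ∨ j.val ≤ i.val) → P i → P (finRotate n i)) :
    ∀ i : Fin n, (i.val ≤ r.val ∨ j.val ≤ i.val) → P i := by
  have h1 : ∀ k : ℕ, ∀ i : Fin n, i.val = j.val + k → P i := by
    intro k
    induction k with
    | zero =>
      intro i hi
      have : i = j := Fin.ext (by omega)
      rw [this]; exact hj
    | succ k ih =>
      intro i hi
      have hlt : j.val + k < n := by have := i.isLt; omega
      have h2 := h ⟨j.val + k, hlt⟩ (Or.inr (by simp)) (ih _ rfl)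
      have : finRotate n ⟨j.val + k, hlt⟩ = i := by
        apply Fin.ext
        rw [nx_val]
        have := i.isLt
        simp only
        rw [if_pos (by omega)]
        omega
      rw [this] at h2
      exact h2
  have hn : 0 < n := j.pos
  have h0 : P ⟨0, hn⟩ := by
    have hlt : n - 1 < n := by omega
    have hj' := j.isLt
    have h2 := h ⟨n - 1, hlt⟩ (Or.inr (by simp only; omega)) (h1 (n - 1 - j.val) _ (by simp only; omega))
    have : finRotate n ⟨n - 1, hlt⟩ = ⟨0, hn⟩ := by
      apply Fin.ext
      rw [nx_val]
      simp only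
      rw [if_neg (by omega)]
    rw [this] at h2
    exact h2
  have h3 : ∀ k : ℕ, ∀ i : Fin n, i.val = k → k ≤ r.val → P i := by
    intro k
    induction k with
    | zero =>
      intro i hi _
      have : i = ⟨0, hn⟩ := Fin.ext hi
      rw [this]; exact h0
    | succ k ih =>
      intro i hi hk
      have hlt : k < n := by have := i.isLt; omega
      have h2 := h ⟨k, hlt⟩ (Or.inl (by simp only; omega)) (ih _ rfl (by omega))
      have : finRotate n ⟨k, hlt⟩ = i := by
        apply Fin.ext
        rw [nx_val]
        have := i.isLt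
        simp only
        rw [if_pos (by omega)]
        omega
      rw [this] at h2
      exact h2
  intro i hi
  rcases hi with hi | hi
  · exact h3 i.val i rfl hi
  · exact h1 (i.val - j.val) i (by omega)

lemma cyc_induction {P : Fin n → Prop} (j : Fin n) (hj : P j)
    (h : ∀ i : Fin n, P i → P (finRotate n i)) : ∀ i : Fin n, P i := by
  intro i
  have := arc_induction (P := P) j j hj (fun i _ hi => h i hi) i
  apply this
  omega

/-- indicator -/
def ind (S : Finset (Fin n)) (i : Fin n) : ℕ := if i ∈ S then 1 else 0

lemma ind_le (S : Finset (Fin n)) (i : Fin n) : ind S i ≤ 1 := by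
  unfold ind; split_ifs <;> simp

lemma ind_of_mem {S : Finset (Fin n)} {i : Fin n} (h : i ∈ S) : ind S i = 1 := by
  simp [ind, h]

lemma ind_of_not_mem {S : Finset (Fin n)} {i : Fin n} (h : i ∉ S) : ind S i = 0 := by
  simp [ind, h]

lemma ind_mono {S T : Finset (Fin n)} (h : S ⊆ T) (i : Fin n) : ind S i ≤ ind T i := by
  unfold ind
  by_cases hi : i ∈ S
  · simp [hi, h hi]
  · simp [hi]

lemma sum_ind (S : Finset (Fin n)) : ∑ i, ind S i = S.card := by
  simp [ind]

/-- `q i` is the queue length just before time `i` -/
def IsQ (S B : Finset (Fin n)) (q : Fin n → ℕ) : Prop :=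
  ∀ i, q (finRotate n i) = q i + ind S i - ind B i

/-- used services -/
def Dq (S B : Finset (Fin n)) (q : Fin n → ℕ) : Finset (Fin n) :=
  B.filter (fun i => 0 < q i + ind S i)

lemma card_Dq {S B : Finset (Fin n)} {q : Fin n → ℕ} (h : IsQ S B q) :
    (Dq S B q).card = S.card := by
  have h1 : ∀ i, q (finRotate n i) + ind (Dq S B q) i = q i + ind S i := by
    intro i
    rw [h i]
    by_cases hB : i ∈ B
    · by_cases h0 : 0 < q i + ind S i
      · rw [ind_of_mem hB, ind_of_mem (S := Dq S B q) (by simp [Dq, hB]; omega)]
        omega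
      · rw [ind_of_mem hB, ind_of_not_mem (S := Dq S B q) (by simp [Dq, hB]; omega)]
        omega
    · rw [ind_of_not_mem hB, ind_of_not_mem (S := Dq S B q) (by simp [Dq, hB])]
      omega
  have h2 : ∑ i, (q (finRotate n i) + ind (Dq S B q) i) = ∑ i, (q i + ind S i) :=
    Finset.sum_congr rfl (fun i _ => h1 i)
  rw [Finset.sum_add_distrib, Finset.sum_add_distrib, sum_ind, sum_ind,
    Equiv.sum_comp (finRotate n) q] at h2
  omega

lemma Dq_subset (S B : Finset (Fin n)) (q : Fin n → ℕ) : Dq S B q ⊆ B :=
  Finset.filter_subset _ _

lemma le_of_super {S B : Finset (Fin n)} {q q' : Fin n → ℕ} (h : IsQ S B q)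
    (hc : S.card < B.card) (h' : ∀ i, q' i + ind S i - ind B i ≤ q' (finRotate n i)) :
    ∀ i, q i ≤ q' i := by
  have hlt : (Dq S B q).card < B.card := by rw [card_Dq h]; exact hc
  obtain ⟨j, hjB, hjD⟩ := Finset.exists_mem_notMem_of_card_lt_card hlt
  have hj0 : q (finRotate n j) = 0 := by
    rw [h j]
    have : ¬ (0 < q j + ind S j) := by
      intro hh
      exact hjD (by simp only [Dq, Finset.mem_filter]; exact ⟨hjB, hh⟩)
    omega
  apply cyc_induction (P := fun i => q i ≤ q' i) (finRotate n j)
  · rw [hj0]; exact Nat.zero_le _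
  · intro i hi
    have := h' i
    rw [h i]
    omega

lemma IsQ_unique {S B : Finset (Fin n)} {q q' : Fin n → ℕ} (h : IsQ S B q) (h' : IsQ S B q')
    (hc : S.card < B.card) : q = q' := by
  funext i
  apply le_antisymm
  · exact le_of_super h hc (fun i => (h' i).ge) i
  · exact le_of_super h' hc (fun i => (h i).ge) i

lemma exists_super (S B : Finset (Fin n)) (hc : S.card ≤ B.card) :
    ∃ q : Fin n → ℕ, ∀ i, q i + ind S i - ind B i ≤ q (finRotate n i) := by
  refine ⟨fun i => (S.filter (fun j => j.val < i.val)).card + (B.filter (fun j => i.val ≤ j.val)).card, ?_⟩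
  intro i
  have hS : (S.filter (fun j => j.val < i.val)).card + ind S i
      = (S.filter (fun j => j.val < i.val + 1)).card := by
    by_cases hi : i ∈ S
    · rw [ind_of_mem hi]
      have : S.filter (fun j => j.val < i.val + 1) = insert i (S.filter (fun j => j.val < i.val)) := by
        ext j
        simp only [Finset.mem_filter, Finset.mem_insert]
        constructor
        · rintro ⟨h1, h2⟩
          by_cases hji : j = i
          · exact Or.inl hji
          · right
            have : j.val ≠ i.val := fun hh => hji (Fin.ext hh)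
            exact ⟨h1, by omega⟩
        · rintro (h1 | ⟨h1, h2⟩)
          · subst h1; exact ⟨hi, by omega⟩
          · exact ⟨h1, by omega⟩
      rw [this, Finset.card_insert_of_notMem (by simp)]
    · rw [ind_of_not_mem hi]
      have : S.filter (fun j => j.val < i.val + 1) = (S.filter (fun j => j.val < i.val)) := by
        ext j
        simp only [Finset.mem_filter]
        constructor
        · rintro ⟨h1, h2⟩
          have hji : j ≠ i := fun hh => hi (hh ▸ h1)
          have : j.val ≠ i.val := fun hh => hji (Fin.ext hh)
          exact ⟨h1, by omega⟩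
        · rintro ⟨h1, h2⟩
          exact ⟨h1, by omega⟩
      rw [this]; rfl
  have hB : (B.filter (fun j => i.val ≤ j.val)).card
      = (B.filter (fun j => i.val + 1 ≤ j.val)).card + ind B i := by
    by_cases hi : i ∈ B
    · rw [ind_of_mem hi]
      have : B.filter (fun j => i.val ≤ j.val) = insert i (B.filter (fun j => i.val + 1 ≤ j.val)) := by
        ext j
        simp only [Finset.mem_filter, Finset.mem_insert]
        constructor
        · rintro ⟨h1, h2⟩
          by_cases hji : j = i
          · exact Or.inl hji
          · right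
            have : j.val ≠ i.val := fun hh => hji (Fin.ext hh)
            exact ⟨h1, by omega⟩
        · rintro (h1 | ⟨h1, h2⟩)
          · subst h1; exact ⟨hi, by omega⟩
          · exact ⟨h1, by omega⟩
      rw [this, Finset.card_insert_of_notMem (by simp)]
    · rw [ind_of_not_mem hi]
      have : B.filter (fun j => i.val ≤ j.val) = (B.filter (fun j => i.val + 1 ≤ j.val)) := by
        ext j
        simp only [Finset.mem_filter]
        constructor
        · rintro ⟨h1, h2⟩
          have hji : j ≠ i := fun hh => hi (hh ▸ h1)
          have : j.val ≠ i.val := fun hh => hji (Fin.ext hh)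
          exact ⟨h1, by omega⟩
        · rintro ⟨h1, h2⟩
          exact ⟨h1, by omega⟩
      rw [this]; rfl
  simp only [nx_val]
  by_cases hi : i.val + 1 < n
  · simp only [if_pos hi]
    omega
  · simp only [if_neg hi]
    have h1 : (S.filter (fun j => j.val < i.val + 1)).card ≤ S.card := Finset.card_filter_le _ _
    have h2 : (B.filter (fun j => i.val + 1 ≤ j.val)).card = 0 := by
      rw [Finset.card_eq_zero, Finset.filter_eq_empty_iff]
      intro j _
      have := j.isLt
      omega
    have h3 : (B.filter (fun j => 0 ≤ j.val)).card = B.card := by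
      congr 1
      apply Finset.filter_true_of_mem
      intro j _
      exact Nat.zero_le _
    omega

lemma exists_IsQ (S B : Finset (Fin n)) (hc : S.card ≤ B.card) : ∃ q, IsQ S B q := by
  obtain ⟨q0, hq0⟩ := exists_super S B hc
  suffices H : ∀ m : ℕ, ∀ q : Fin n → ℕ, ∑ i, q i = m →
      (∀ i, q i + ind S i - ind B i ≤ q (finRotate n i)) → ∃ q, IsQ S B q from H _ q0 rfl hq0
  intro m
  induction m using Nat.strong_induction_on with
  | _ m ih =>
    intro q hm hq
    by_cases hfix : IsQ S B q
    · exact ⟨q, hfix⟩
    · let q' : Fin n → ℕ := fun i => q ((finRotate n).symm i) + ind S ((finRotate n).symm i)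
        - ind B ((finRotate n).symm i)
      have hle : ∀ i, q' i ≤ q i := by
        intro i
        have := hq ((finRotate n).symm i)
        rw [Equiv.apply_symm_apply] at this
        exact this
      have hq' : ∀ i, q' i + ind S i - ind B i ≤ q' (finRotate n i) := by
        intro i
        have h1 : q' (finRotate n i) = q i + ind S i - ind B i := by
          simp only [q', Equiv.symm_apply_apply]
        have := hle i
        omega
      have hlt : ∑ i, q' i < ∑ i, q i := by
        unfold IsQ at hfix
        push Not at hfix
        obtain ⟨j, hj⟩ := hfix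
        apply Finset.sum_lt_sum (fun i _ => hle i)
        refine ⟨finRotate n j, Finset.mem_univ _, ?_⟩
        have h1 : q' (finRotate n j) = q j + ind S j - ind B j := by
          simp only [q', Equiv.symm_apply_apply]
        have := hq j
        omega
      exact ih _ (hm ▸ hlt) q' rfl hq'

open Classical in
/-- the queue length process on the ring -/
noncomputable def Q (S B : Finset (Fin n)) : Fin n → ℕ :=
  if h : ∃ q, IsQ S B q then h.choose else 0

lemma isQ_Q {S B : Finset (Fin n)} (hc : S.card ≤ B.card) : IsQ S B (Q S B) := by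
  have h := exists_IsQ S B hc
  unfold Q
  rw [dif_pos h]
  exact h.choose_spec

/-- departure set -/
noncomputable def D (S B : Finset (Fin n)) : Finset (Fin n) := Dq S B (Q S B)

lemma mem_D {S B : Finset (Fin n)} {i : Fin n} : i ∈ D S B ↔ i ∈ B ∧ 0 < Q S B i + ind S i := by
  simp only [D, Dq, Finset.mem_filter]

lemma D_subset (S B : Finset (Fin n)) : D S B ⊆ B := Dq_subset _ _ _

lemma card_D {S B : Finset (Fin n)} (hc : S.card ≤ B.card) : (D S B).card = S.card :=
  card_Dq (isQ_Q hc)

lemma Q_eq {S B : Finset (Fin n)} {q : Fin n → ℕ} (h : IsQ S B q) (hc : S.card < B.card) :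
    Q S B = q := IsQ_unique (isQ_Q hc.le) h hc

lemma Q_mono {S S' B B' : Finset (Fin n)} (hS : S ⊆ S') (hB : B' ⊆ B)
    (hc : S'.card < B'.card) (i : Fin n) : Q S B i ≤ Q S' B' i := by
  have h1 : S.card < B.card :=
    lt_of_le_of_lt (Finset.card_le_card hS) (lt_of_lt_of_le hc (Finset.card_le_card hB))
  apply le_of_super (isQ_Q h1.le) h1
  intro i
  rw [isQ_Q hc.le i]
  have := ind_mono hS i
  have := ind_mono hB i
  omega

/-- Removing the service at time `r` does not change departures before `r` when some later
service is unused. -/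
lemma D_agree {S T B : Finset (Fin n)} {r j : Fin n} (hr : r ∉ B) (hS : S ⊆ T)
    (hc : T.card < B.card) (hrj : r.val < j.val) (hjB : j ∈ B) (hjD : j ∉ D T (insert r B))
    (p : Fin n) (hp : p.val < r.val) : p ∈ D S B ↔ p ∈ D S (insert r B) := by
  have hBB : B ⊆ insert r B := Finset.subset_insert _ _
  have hcS : S.card < B.card := lt_of_le_of_lt (Finset.card_le_card hS) hc
  have hc' : T.card < (insert r B).card := lt_of_lt_of_le hc (Finset.card_le_card hBB)
  have hcS' : S.card < (insert r B).card := lt_of_lt_of_le hcS (Finset.card_le_card hBB)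
  set q' := Q S (insert r B) with hq'
  have hIq' : IsQ S (insert r B) q' := isQ_Q hcS'.le
  have hj0 : q' j = 0 ∧ j ∉ S := by
    have h1 : ¬ (0 < Q T (insert r B) j + ind T j) := fun hh => hjD (mem_D.2 ⟨hBB hjB, hh⟩)
    have h2 : q' j ≤ Q T (insert r B) j := Q_mono hS (Finset.Subset.refl (insert r B)) hc' j
    refine ⟨by omega, fun hh => ?_⟩
    rw [ind_of_mem (hS hh)] at h1
    omega
  let qt : Fin n → ℕ := fun i => if r.val < i.val ∧ i.val ≤ j.val then q' i + 1 else q' i
  have hsup : ∀ i, qt i + ind S i - ind B i ≤ qt (finRotate n i) := by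
    intro i
    have hv := nx_val i
    have hi := hIq' i
    have hjn := j.isLt
    by_cases hir : i = r
    · subst hir
      have e1 : ind (insert i B) i = 1 := ind_of_mem (Finset.mem_insert_self _ _)
      have e2 : ind B i = 0 := ind_of_not_mem hr
      rw [if_pos (by omega)] at hv
      simp only [qt]
      rw [if_neg (by omega), if_pos (by omega)]
      omega
    · have e1 : ind (insert r B) i = ind B i := by
        unfold ind
        simp [hir]
      have hir' : i.val ≠ r.val := fun hh => hir (Fin.ext hh)
      by_cases hij : i = j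
      · subst hij
        have e2 : ind B i = 1 := ind_of_mem hjB
        have e3 : ind S i = 0 := ind_of_not_mem hj0.2
        have e4 := hj0.1
        simp only [qt]
        rw [if_pos (by omega)]
        omega
      · have hij' : i.val ≠ j.val := fun hh => hij (Fin.ext hh)
        simp only [qt]
        by_cases hin : r.val < i.val ∧ i.val ≤ j.val
        · rw [if_pos (by omega)] at hv
          rw [if_pos hin, if_pos (by omega)]
          omega
        · rw [if_neg hin]
          split_ifs <;> omega
  have hle := le_of_super (isQ_Q hcS.le) hcS hsup p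
  have hge : q' p ≤ Q S B p := Q_mono (Finset.Subset.refl S) hBB hcS p
  have hqt : qt p = q' p := by
    simp only [qt]
    rw [if_neg (by omega)]
  have heq : Q S B p = q' p := by omega
  have hpr : p ≠ r := fun hh => by rw [hh] at hp; omega
  rw [mem_D, mem_D, heq]
  simp [hpr, hq']

/-- existence of a late unused service, first case -/
lemma exists_late_of_insert {T B : Finset (Fin n)} {r : Fin n} (hr : r ∉ B)
    (hc : T.card < B.card) (hI : ∀ p : Fin n, p.val < r.val → p ∈ D T (insert r B)) :
    ∃ j : Fin n, r.val < j.val ∧ j ∈ B ∧ j ∉ D T (insert r B) := by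
  have hc' : T.card ≤ (insert r B).card :=
    (lt_of_lt_of_le hc (Finset.card_le_card (Finset.subset_insert _ _))).le
  have h1 : (D T (insert r B)).card < B.card := by rw [card_D hc']; exact hc
  obtain ⟨j, hjB, hjD⟩ := Finset.exists_mem_notMem_of_card_lt_card h1
  refine ⟨j, ?_, hjB, hjD⟩
  have h2 : j.val ≠ r.val := fun hh => hr (Fin.ext hh ▸ hjB)
  have h3 : ¬ j.val < r.val := fun hh => hjD (hI j hh)
  omega

/-- existence of a late unused service, second case -/
lemma exists_late_of_base {T B : Finset (Fin n)} {r : Fin n} (hr : r ∉ B)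
    (hc : T.card < B.card) (hI : ∀ p : Fin n, p.val < r.val → p ∈ D T B) :
    ∃ j : Fin n, r.val < j.val ∧ j ∈ B ∧ j ∉ D T (insert r B) := by
  have h1 : (D T B).card < B.card := by rw [card_D hc.le]; exact hc
  obtain ⟨j, hjB, hjD⟩ := Finset.exists_mem_notMem_of_card_lt_card h1
  refine ⟨j, ?_, hjB, ?_⟩
  · have h2 : j.val ≠ r.val := fun hh => hr (Fin.ext hh ▸ hjB)
    have h3 : ¬ j.val < r.val := fun hh => hjD (hI j hh)
    omega
  · intro hh
    apply hjD
    rw [mem_D] at hh ⊢
    have := Q_mono (Finset.Subset.refl T) (Finset.subset_insert r B) hc j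
    exact ⟨hjB, by omega⟩

end Pool.Agent.P.MP_9492fd_pr
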