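import Pool.Agent.P.MP_9492fd_pr.Fac

/-! Strict positive correlation when the new label is the successor of the largest label. -/

open Finset

namespace Pool.Agent.P.MP_9492fd_pr

variable {n : ℕ}

lemma D_of_subset {S B : Finset (Fin n)} (h : S ⊆ B) (hc : S.card < B.card) : D S B = S := by
  have : Q S B = fun _ => 0 := Q_eq (fun i => by have := ind_mono h i; omega) hc
  ext i
  rw [mem_D, this]
  by_cases e : i ∈ S
  · simp [ind_of_mem e, e, h e]
  · simp [ind_of_not_mem e, e]

lemma mlq_nonneg (t : ℕ) {g : Ch n → ℝ} (hg : ∀ F, 0 ≤ g F) : 0 ≤ mlq t 1 g := by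
  induction t generalizing g with
  | zero => exact hg _
  | succ t ih =>
    rw [mlq, row_apply]
    exact sum_nonneg fun B _ => mul_nonneg (by simp [wt]) (ih fun F => hg _)

lemma le_mlq {t : ℕ} {g : Ch n → ℝ} (hg : ∀ F, 0 ≤ g F) {F : Ch n} (hF : Valid t F) :
    g F ≤ mlq t 1 g := by
  induction t generalizing g F with
  | zero =>
    have : F = fun _ => ∅ := funext fun c => card_eq_zero.1 (by simpa using hF.1 c)
    exact this ▸ le_rfl
  | succ t ih =>
    have h1 : (F (t + 1)).card = t + 1 := by simpa using hF.1 (t + 1)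
    have h2 := ih (g := fun G => g (step (F (t + 1)) G)) (F := fun c => F (min c t))
      (fun _ => hg _) ⟨fun c => by rw [hF.1]; omega, fun c c' h => hF.2 (min_le_min_right _ h)⟩
    have h3 : step (F (t + 1)) (fun c => F (min c t)) = F := funext fun c => by
      rw [step, h1]
      split_ifs
      · rw [min_eq_left (by omega)]
        exact D_of_subset (hF.2 (by omega)) (by rw [h1, hF.1]; omega)
      · exact eq_of_subset_of_card_le (hF.2 (by omega)) (by rw [h1, hF.1]; omega)
    simp only [h3] at h2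
    rw [mlq, row_apply]
    refine h2.trans (le_trans (by simp [wt]) (single_le_sum (fun B _ => mul_nonneg (by simp [wt])
      (mlq_nonneg t fun G => hg _)) (mem_powersetCard.2 ⟨subset_univ _, h1⟩)))

lemma valid_lev (σ : Equiv.Perm (Fin n)) : Valid n (lev σ) := by
  refine ⟨fun c => ?_, fun c c' h => lev_mono σ h⟩
  rcases le_total c n with h | h
  · rw [card_lev σ h, min_eq_left h]
  · rw [min_eq_right h, eq_univ_of_forall fun p => mem_lev.2 ((σ p).isLt.trans_le h), card_fin]

variable {π : Equiv.Perm (Fin n) → ℝ}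

lemma stat_pos (hπ : Stat π) (h1 : ∑ σ, π σ = 1) (σ : Equiv.Perm (Fin n)) : 0 < π σ := by
  obtain ⟨Z, hZ, e⟩ := mlq_one hπ h1 le_rfl
  have h2 := le_mlq (g := iX univ fun p => (σ p).val) (fun F => by unfold iX; split_ifs <;> simp)
    (valid_lev σ)
  have h3 : ∀ τ : Equiv.Perm (Fin n), XE univ (fun p => (σ p).val) (fun c => lev τ (min c n)) ↔
      τ = σ := fun τ => by
    rw [Equiv.ext_iff]
    refine forall_congr' fun p => ?_
    have := (σ p).isLt
    simp only [mem_univ, true_imp_iff, mem_lev, Fin.ext_iff]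
    omega
  rw [e, iX, if_pos (show XE _ _ _ from fun p _ => by simp [mem_lev])] at h2
  simp only [iX, h3, mul_ite, mul_one, mul_zero, sum_ite_eq', mem_univ, if_true] at h2
  exact (mul_pos_iff_of_pos_left hZ).1 (one_pos.trans_le h2)

lemma fm_ch (hπ : Stat π) {t : ℕ} (ht : t ≤ n) (g : Ch n → ℝ) :
    (n.choose t : ℝ) * ∑ σ, π σ * g (fun c => lev σ (min c t)) =
      ∑ B ∈ powersetCard t univ, ∑ σ, π σ * g (step B (lev σ)) := by
  have := fm_step hπ (K := Fin t) (fun k => k) ht (fun k => k.isLt)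
    fun F B => g fun c => if h : c < t then F ⟨c, h⟩ else B
  refine Eq.trans ?_ (this.trans (sum_congr rfl fun B hB => sum_congr rfl fun σ _ => ?_))
  · congr 1
    refine sum_congr rfl fun σ _ => ?_
    congr 2
    funext c
    split_ifs
    · rw [min_eq_left (by omega)]
    · rw [min_eq_right (by omega)]
  · congr 2
    funext c
    rw [step, (mem_powersetCard.1 hB).2]
    split_ifs <;> rfl

lemma XE_of_insert {F : Ch n} (hF : Valid n F) {B : Finset (Fin n)} {q : Fin n} (hq : q ∉ B)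
    {i : Fin n → ℕ} (hi : ∀ p, p < q → i p < B.card) (h : XE (Iio q) i (step (insert q B) F)) :
    XE (Iio q) i (step B F) := by
  have hB := card_insert_of_notMem hq
  have hc : ∀ c, c ≤ B.card → (F c).card = c := fun c h => by
    have := card_le_n B
    rw [hF.1]; omega
  have h0 : ∀ p, p < q → p ∈ D (F (i p + 1)) (insert q B) ∧ p ∉ D (F (i p)) (insert q B) :=
    fun p hp => by
      have := h p (mem_Iio.2 hp)
      have := hi p hp
      simp only [step, hB] at *
      rwa [if_pos (by omega), if_pos (by omega)] at *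
  obtain ⟨j, j1, j2⟩ : ∃ j ∈ insert q B, j ∉ D (F B.card) (insert q B) :=
    exists_mem_notMem_of_card_lt_card (by rw [card_D] <;> rw [hc _ le_rfl] <;> omega)
  have hm : ∀ c, c ≤ B.card → D (F c) (insert q B) ⊆ D (F B.card) (insert q B) := fun c e =>
    D_mono (hF.2 e) (by rw [hc _ le_rfl]; omega)
  have ha : ∀ c, c < B.card → ∀ p, p < q → (p ∈ D (F c) B ↔ p ∈ D (F c) (insert q B)) := by
    intro c e p hp
    have e1 : (F c).card < B.card := by rw [hc _ e.le]; exact e
    have j3 : j ∉ D (F c) (insert q B) := fun e' => j2 (hm c e.le e')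
    rcases mem_insert.1 j1 with rfl | j4
    · rw [eq_of_subset_of_card_le (s := D (F c) (insert j B)) (t := D (F c) B) (fun z hz =>
        D_anti e1 ((mem_insert.1 (D_subset _ _ hz)).resolve_left fun e' => j3 (e' ▸ hz)) hz)
        (by rw [card_D e1.le, card_D (by omega)])]
    · refine D_agree' hq e1 j4 j3 hp (Or.inl ?_)
      have a1 : ¬ j < q := fun e' => j2 (hm _ (hi j e') (h0 j e').1)
      have a2 : j.val ≠ q.val := fun e' => hq (Fin.ext e' ▸ j4)
      rw [Fin.lt_def] at a1
      omega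
  intro p hp
  rw [mem_Iio] at hp
  simp only [step]
  rw [if_pos (hi p hp), ha _ (hi p hp) p hp]
  refine ⟨?_, (h0 p hp).2⟩
  split_ifs with e
  · exact (ha _ e p hp).2 (h0 p hp).1
  · exact (mem_insert.1 (D_subset _ _ (h0 p hp).1)).resolve_left hp.ne

lemma sum_cmp (hπ : Stat π) (h1 : ∑ σ, π σ = 1) {r k p₀ : Fin n} {j : Fin n → ℕ}
    {σ : Equiv.Perm (Fin n)} (hj : ∀ p, p < r → j p < k) (s1 : σ r = k)
    (s2 : ∀ p, p < r → (σ p).val = j p) (p1 : p₀ < r) (p2 : j p₀ + 1 = k) :
    ∑ B ∈ (powersetCard k.val univ).filter fun B => r ∉ B, ∑ τ, π τ *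
        iX (Iio r) j (step (insert r B) (lev τ)) <
      ∑ B ∈ (powersetCard k.val univ).filter fun B => r ∉ B, ∑ τ, π τ *
        iX (Iio r) j (step B (lev τ)) := by
  have c1 : ∀ B ∈ (powersetCard k.val univ).filter fun B => r ∉ B, ∀ τ,
      π τ * iX (Iio r) j (step (insert r B) (lev τ)) ≤ π τ * iX (Iio r) j (step B (lev τ)) := by
    intro B hB τ
    simp only [mem_filter, mem_powersetCard] at hB
    refine mul_le_mul_of_nonneg_left ?_ (stat_pos hπ h1 τ).le
    have := XE_of_insert (valid_lev τ) hB.2 (i := j) (hB.1.2 ▸ hj)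
    unfold iX
    split_ifs with e1 e2
    exacts [le_rfl, absurd (this e1) e2, zero_le_one, le_rfl]
  obtain ⟨τ, hτ⟩ : ∃ τ, τ = σ * Equiv.swap p₀ r := ⟨_, rfl⟩
  have s3 : ∀ c z, z ∈ lev τ c ↔
      if z = p₀ then k.val < c else if z = r then k.val ≤ c else (σ z).val < c := fun c z => by
    rw [mem_lev, hτ, Equiv.Perm.mul_apply, Equiv.swap_apply_def]
    split_ifs
    · rw [s1]
    · rw [s2 _ p1]; omega
    · rfl
  have s4 : r ∉ lev σ k := by simp [mem_lev, s1]
  have s5 := card_lev σ k.isLt.le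
  have s6 : lev σ k ∈ (powersetCard k.val univ).filter fun B => r ∉ B := by simp [s4, s5]
  refine sum_lt_sum (fun B hB => sum_le_sum fun σ _ => c1 B hB σ) ⟨lev σ k, s6,
    sum_lt_sum (fun τ _ => c1 _ s6 τ) ⟨τ, mem_univ _, ?_⟩⟩
  refine mul_lt_mul_of_pos_left ?_ (stat_pos hπ h1 _)
  have d1 : ∀ c, c < k.val → lev τ c = lev σ c := fun c e => by
    ext z
    rw [s3, mem_lev]
    split_ifs with e1 e2
    · rw [e1, s2 _ p1]; omega
    · rw [e2, s1]; omega
    · rfl
  have d2 : ∀ c, c ≤ k.val → step (lev σ k) (lev τ) c = lev σ c := fun c e => by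
    rw [step, s5]
    split_ifs with e1
    · rw [d1 c e1, D_of_subset (lev_mono σ e) (by rw [s5, card_lev σ (by omega)]; exact e1)]
    · rw [le_antisymm e (not_lt.1 e1)]
  have d3 : XE (Iio r) j (step (lev σ k) (lev τ)) := fun p hp => by
    rw [mem_Iio] at hp
    have := hj p hp
    rw [d2 _ this, d2 _ this.le, mem_lev, mem_lev, s2 p hp]
    omega
  have d4 : ¬ XE (Iio r) j (step (insert r (lev σ k)) (lev τ)) := fun h => by
    have := (h p₀ (mem_Iio.2 p1)).1
    rw [p2, step, card_insert_of_notMem s4, s5, if_pos (Nat.lt_succ_self _), D_of_subset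
      (fun z hz => ?_) (by rw [card_insert_of_notMem s4, s5, card_lev _ k.isLt.le]; omega), s3,
      if_pos rfl] at this
    · omega
    · rw [s3] at hz
      rw [mem_insert, mem_lev]
      split_ifs at hz with e1 e2
      exacts [absurd hz (lt_irrefl _), Or.inl e2, Or.inr hz]
  rw [iX, iX, if_pos d3, if_neg d4]
  exact one_pos

lemma level_cmp (hπ : Stat π) (h1 : ∑ σ, π σ = 1) {r k p₀ : Fin n} {j : Fin n → ℕ}
    {σ : Equiv.Perm (Fin n)} (hj : ∀ p, p < r → j p < k) (s1 : σ r = k)
    (s2 : ∀ p, p < r → (σ p).val = j p) (p1 : p₀ < r) (p2 : j p₀ + 1 = k) :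
    (n.choose (k + 1) : ℝ) * ∑ τ, π τ * (iX (Iio r) j (lev τ) * (1 - hh (lev τ) r (k + 1))) <
      n.choose k * ∑ τ, π τ * (iX (Iio r) j (lev τ) * hh (lev τ) r k) := by
  have hE : ∀ t, k.val ≤ t → ∀ F : Ch n, iX (Iio r) j (fun c => F (min c t)) = iX (Iio r) j F :=
    fun t ht F => by
      have : XE (Iio r) j (fun c => F (min c t)) ↔ XE (Iio r) j F := forall₂_congr fun p hp => by
        have := hj p (mem_Iio.1 hp)
        simp only
        rw [min_eq_left (by omega), min_eq_left (by omega)]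
      rw [iX, iX, this]
  have hh1 : ∀ t (F : Ch n), hh (fun c => F (min c t)) r t = hh F r t := fun t F =>
    if_congr (by simp only [min_self]) rfl rfl
  have hh2 : ∀ (B : Finset (Fin n)) F, hh (step B F) r B.card = if r ∈ B then 0 else 1 :=
    fun B F => if_congr (by rw [step, if_neg (lt_irrefl _)]) rfl rfl
  have a1 := fm_ch hπ k.isLt.le fun F => iX (Iio r) j F * hh F r k
  have a2 := fm_ch hπ (t := k + 1) k.isLt fun F => iX (Iio r) j F * (1 - hh F r (k + 1))
  simp only [hE _ le_rfl, hE _ (Nat.le_add_right _ 1), hh1] at a1 a2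
  rw [a1, a2]
  refine lt_of_eq_of_lt ?_ ((sum_cmp hπ h1 hj s1 s2 p1 p2).trans_eq ?_)
  · refine Eq.trans (b := ∑ B ∈ (powersetCard (k.val + 1) univ).filter fun B => r ∈ B, ∑ σ, π σ *
        iX (Iio r) j (step B (lev σ))) ?_ (Eq.symm ?_)
    · rw [sum_filter]
      refine sum_congr rfl fun B hB => ?_
      simp only [← (mem_powersetCard.1 hB).2, hh2]
      split_ifs <;> simp
    · refine sum_bij' (fun B _ => insert r B) (fun B _ => B.erase r) ?_ ?_ ?_ ?_
        fun _ _ => rfl <;> simp only [mem_filter, mem_powersetCard, subset_univ, true_and]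
      · exact fun B hB => ⟨by rw [card_insert_of_notMem hB.2, hB.1], mem_insert_self _ _⟩
      · exact fun B hB => ⟨by rw [card_erase_of_mem hB.2, hB.1]; rfl, notMem_erase _ _⟩
      · exact fun B hB => erase_insert hB.2
      · exact fun B hB => insert_erase hB.2
  · rw [sum_filter]
    refine sum_congr rfl fun B hB => ?_
    simp only [← (mem_powersetCard.1 hB).2, hh2]
    split_ifs <;> simp_all

open Classical in
/-- the successor of the largest label is attracted to the next site -/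
theorem next_gt (hπ : Stat π) (h1 : ∑ σ, π σ = 1) {r : Fin n} {i : Fin r.val → Fin n} {k : Fin n}
    (hi : ∀ a, i a < k) (hinj : Function.Injective i) {a₀ : Fin r.val} (ha : (i a₀).val + 1 = k.val) :
    ∑ σ, π σ * (if (∀ p : Fin n, ∀ a : Fin r.val, p.val = a.val → σ p = i a) then 1 else 0) <
      (n : ℝ) * ∑ σ, π σ * (if (∀ p : Fin n, ∀ a : Fin r.val, p.val = a.val → σ p = i a)
        ∧ σ r = k then 1 else 0) := by
  obtain ⟨j, hj⟩ : ∃ j : Fin n → ℕ, ∀ p (h : p < r), j p = i ⟨p, h⟩ :=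
    ⟨fun p => if h : p < r then i ⟨p, h⟩ else 0, fun p h => dif_pos h⟩
  have hj' : ∀ p, p < r → j p < k := fun p h => by rw [hj p h]; exact hi _
  have hE : ∀ σ : Equiv.Perm (Fin n), (∀ p : Fin n, ∀ a : Fin r.val, p.val = a.val → σ p = i a) ↔
      XE (Iio r) j (lev σ) := fun σ => by
    refine forall_congr' fun p => ⟨fun h hp => ?_, fun h a e => ?_⟩
    · rw [mem_Iio] at hp
      simp only [mem_lev, h ⟨p, hp⟩ rfl, ← hj p hp]
      omega
    · have hp : p < r := by rw [Fin.lt_def, e]; exact a.isLt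
      have := h (mem_Iio.2 hp)
      obtain rfl : a = ⟨p, hp⟩ := Fin.ext e.symm
      simp only [mem_lev, hj p hp, Fin.ext_iff] at *
      omega
  obtain ⟨σ, hσ⟩ := Equiv.Perm.exists_extending_pair
    (f := fun a : Option (Fin r.val) => a.elim r fun a => ⟨a, a.isLt.trans r.isLt⟩)
    (g := fun a => a.elim k i)
    (by rintro (_ | a) (_ | b) e <;> simp only [Option.elim, Fin.ext_iff] at e <;>
      first | rfl | omega | exact congrArg _ (Fin.ext e))
    (by
      rintro (_ | a) (_ | b) e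
      exacts [rfl, absurd e (hi b).ne', absurd e (hi a).ne, congrArg _ (hinj e)])
  have c := level_cmp hπ h1 hj' (hσ none)
    (fun p h => by rw [hj p h]; exact congrArg Fin.val (hσ (some ⟨p, h⟩)))
    (p₀ := ⟨a₀, a₀.isLt.trans r.isLt⟩) a₀.isLt (by rw [hj _ a₀.isLt]; exact ha)
  have a := tail_prob' hπ (i := i) (t := k.val + 1) (fun a => Nat.succ_lt_succ (hi a)) k.isLt
  have e0 : ∀ σ : Equiv.Perm (Fin n), (if (∀ p : Fin n, ∀ a : Fin r.val, p.val = a.val →
      σ p = i a) then (1 : ℝ) else 0) = iX (Iio r) j (lev σ) := fun σ => if_congr (hE σ) rfl rfl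
  have e1 : ∀ σ : Equiv.Perm (Fin n), (if (∀ p : Fin n, ∀ a : Fin r.val, p.val = a.val →
      σ p = i a) ∧ k.val + 1 ≤ (σ r).val then (1 : ℝ) else 0) =
      iX (Iio r) j (lev σ) * hh (lev σ) r (k + 1) := fun σ => by
    rw [ite_and, ← e0, ite_mul, one_mul, zero_mul, hh]
    refine if_congr Iff.rfl ?_ rfl
    simp only [mem_lev]
    split_ifs <;> first | rfl | omega
  have e2 : ∀ σ : Equiv.Perm (Fin n), (if (∀ p : Fin n, ∀ a : Fin r.val, p.val = a.val →
      σ p = i a) ∧ σ r = k then (1 : ℝ) else 0) =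
      iX (Iio r) j (lev σ) * (hh (lev σ) r k - hh (lev σ) r (k + 1)) := fun σ => by
    rw [ite_and, ← e0, ite_mul, one_mul, zero_mul, hh, hh]
    refine if_congr Iff.rfl ?_ rfl
    simp only [mem_lev, Fin.ext_iff]
    split_ifs <;> first | omega | simp
  simp only [e0, e1, e2, mul_sub, mul_one, sum_sub_distrib] at a c ⊢
  have hc : (n.choose (k + 1) : ℝ) * (k + 1) = n.choose k * (n - k) := by
    rw [← Nat.cast_sub k.isLt.le]
    exact_mod_cast Nat.choose_succ_right_eq n k
  have hc0 : (0 : ℝ) < n.choose k := by exact_mod_cast Nat.choose_pos k.isLt.le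
  have hn : (0 : ℝ) < n := by exact_mod_cast r.pos
  refine lt_of_mul_lt_mul_left ?_ hc0.le
  push_cast at a
  generalize ∑ σ, π σ * iX (Iio r) j (lev σ) = P at *
  linear_combination mul_lt_mul_of_pos_left c hn + (n.choose (k + 1) + n.choose k : ℝ) * a - P * hc

open Classical in
/-- increasing words: lower bound and the case of equality -/
theorem sharp (hπ : Stat π) (h1 : ∑ σ, π σ = 1) : ∀ r : ℕ, r ≤ n → ∀ i : Fin r → Fin n,
    StrictMono i → 1 / (n : ℝ) ^ r ≤
      ∑ σ, π σ * (if (∀ p : Fin n, ∀ a : Fin r, p.val = a.val → σ p = i a) then 1 else 0) ∧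
    ((∃ a b : Fin r, a.val + 1 = b.val ∧ (i a).val + 1 = (i b).val) → 1 / (n : ℝ) ^ r <
      ∑ σ, π σ * (if (∀ p : Fin n, ∀ a : Fin r, p.val = a.val → σ p = i a) then 1 else 0)) := by
  intro r
  induction r with
  | zero => exact fun _ i _ => ⟨by simp [h1], fun ⟨a, _⟩ => a.elim0⟩
  | succ r ih =>
    intro hr i hi
    obtain ⟨b1, b2⟩ := ih (by omega) (fun a => i a.castSucc) (hi.comp Fin.strictMono_castSucc)
    have h3 : ∀ σ : Equiv.Perm (Fin n),
        (∀ p : Fin n, ∀ a : Fin (r + 1), p.val = a.val → σ p = i a) ↔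
        ((∀ p : Fin n, ∀ a : Fin r, p.val = a.val → σ p = i a.castSucc)
          ∧ σ ⟨r, by omega⟩ = i (Fin.last r)) := fun σ =>
      ⟨fun h => ⟨fun p a hpa => h p _ hpa, h _ _ rfl⟩, fun h p a hpa => by
        rcases Fin.eq_castSucc_or_eq_last a with ⟨a', rfl⟩ | rfl
        · exact h.1 p a' hpa
        · exact (Fin.ext hpa : p = ⟨r, by omega⟩) ▸ h.2⟩
    have hn : (0 : ℝ) < n := by exact_mod_cast (by omega : 0 < n)
    have hl : ∀ a : Fin r, i a.castSucc < i (Fin.last r) := fun a => hi (Fin.castSucc_lt_last a)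
    simp only [h3, pow_succ, ← div_div, div_le_iff₀' hn, div_lt_iff₀' hn]
    by_cases e : ∃ a : Fin r, (i a.castSucc).val + 1 = (i (Fin.last r)).val
    · obtain ⟨a, ha⟩ := e
      have := b1.trans_lt (next_gt hπ h1 (r := ⟨r, by omega⟩) (i := fun a => i (Fin.castSucc a)) hl
        (hi.comp Fin.strictMono_castSucc).injective ha)
      exact ⟨this.le, fun _ => this⟩
    · have := next_prob hπ (r := ⟨r, by omega⟩) (i := fun a => i (Fin.castSucc a))
        (k := i (Fin.last r)) fun a => lt_of_le_of_ne (hl a) fun e' => e ⟨a, e'⟩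
      refine ⟨b1.trans_eq this.symm, fun ⟨a, b, e1, e2⟩ => (b2 ?_).trans_eq this.symm⟩
      have := b.isLt
      rcases Fin.eq_castSucc_or_eq_last b with ⟨b', rfl⟩ | rfl
      · exact ⟨⟨a, by have := b'.isLt; simp at e1; omega⟩, b', e1, e2⟩
      · exact absurd ⟨⟨a, by simp at e1; omega⟩, e2⟩ e

end Pool.Agent.P.MP_9492fd_pr
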