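import Pool.Agent.P.MP_9492fd_pr.Main

/-! Multiline queues with site weights: exchange relation and the weighted Ferrari-Martin step. -/

open Finset

namespace Pool.Agent.P.MP_9492fd_pr

variable {n : ℕ}

/-- the exchange relation at the bond `a` -/
def ExAt {Ω : Type} (τ : Fin n → Ω → Ω) (Φ : (Fin n → ℝ) → (Ω → ℝ) →ₗ[ℝ] ℝ) (x : Fin n → ℝ)
    (a : Fin n) : Prop :=
  ∀ g, (x (finRotate n a) - x a) * Φ x (fun w => g (τ a w)) + x a * Φ x g =
    x (finRotate n a) * Φ (x ∘ Equiv.swap a (finRotate n a)) g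

/-- the bond left of the site that carries the weight `i₀` -/
def bond (i₀ : Fin n) (g : Equiv.Perm (Fin n)) : Fin n := (finRotate n).symm (g.symm i₀)

/-- moving the weight `i₀` one step to the left -/
def hop (i₀ : Fin n) (g : Equiv.Perm (Fin n)) : Equiv.Perm (Fin n) :=
  g * Equiv.swap (bond i₀ g) (finRotate n (bond i₀ g))

lemma bond_hop (i₀ : Fin n) (g : Equiv.Perm (Fin n)) :
    bond i₀ (hop i₀ g) = (finRotate n).symm (bond i₀ g) := by
  have : (hop i₀ g).symm i₀ = bond i₀ g := by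
    rw [Equiv.symm_apply_eq, hop, Equiv.Perm.mul_apply, Equiv.swap_apply_left, bond,
      Equiv.apply_symm_apply, Equiv.apply_symm_apply]
  rw [bond, this]

lemma hop_bij (i₀ : Fin n) : Function.Bijective (hop i₀) := by
  refine Finite.injective_iff_bijective.1 fun g g' h => ?_
  have h1 := congrArg (bond i₀) h
  rw [bond_hop, bond_hop, Equiv.apply_eq_iff_eq] at h1
  rw [hop, hop, h1] at h
  exact mul_right_cancel h

lemma exists_bond (i₀ a : Fin n) (g : Equiv.Perm (Fin n)) : ∃ k, bond i₀ ((hop i₀)^[k] g) = a := by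
  suffices H : ∀ b, ∀ g, bond i₀ g = b → ∃ k, bond i₀ ((hop i₀)^[k] g) = a from H _ g rfl
  refine cyc_induction a (fun g hg => ⟨0, hg⟩) fun b ih g hg => ?_
  obtain ⟨k, hk⟩ := ih (hop i₀ g) (by rw [bond_hop, hg, Equiv.symm_apply_apply])
  exact ⟨k + 1, hk⟩

lemma rot_ne (hn : 2 ≤ n) (a : Fin n) : finRotate n a ≠ a := fun h => by
  have h1 := nx_val a
  rw [h] at h1
  split_ifs at h1 <;> omega

section uniq

variable {Ω : Type} [Fintype Ω] [DecidableEq Ω] {τ : Fin n → Ω → Ω}
  {Φ : (Fin n → ℝ) → (Ω → ℝ) →ₗ[ℝ] ℝ} {x : Fin n → ℝ} {i₀ : Fin n}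

lemma expand (L : (Ω → ℝ) →ₗ[ℝ] ℝ) (g : Ω → ℝ) : L g = ∑ v, g v * L (Pi.single v 1) := by
  conv_lhs => rw [pi_eq_sum_univ' g]
  simp [map_sum]

lemma pos_step (h : ∀ x a, ExAt τ Φ x a) (hn : 2 ≤ n) (hx : ∀ i, 0 < x i)
    (hi : ∀ i, i ≠ i₀ → x i < x i₀) {g : Equiv.Perm (Fin n)} {v : Ω}
    (hv : 0 < Φ (x ∘ g) (Pi.single v 1)) : 0 < Φ (x ∘ hop i₀ g) (Pi.single v 1) ∧
      0 < Φ (x ∘ hop i₀ g) (Pi.single (τ (bond i₀ g) v) 1) := by
  obtain ⟨P, hP⟩ : ∃ P : Equiv.Perm (Fin n) → Ω → ℝ,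
    ∀ g w, P g w = max (Φ (x ∘ g) (Pi.single w 1)) 0 := ⟨_, fun _ _ => rfl⟩
  obtain ⟨K, hK⟩ : ∃ K : Equiv.Perm (Fin n) → Ω → ℝ, ∀ g w, K g w =
    (x i₀ - x (g (bond i₀ g))) * ∑ v, (if τ (bond i₀ g) v = w then P g v else 0) +
      x (g (bond i₀ g)) * P g w := ⟨_, fun _ _ => rfl⟩
  have hP0 : ∀ g w, 0 ≤ P g w := fun g w => by rw [hP]; exact le_max_right _ _
  have hP1 : ∀ (g : Equiv.Perm (Fin n)) w, Φ (x ∘ g) (Pi.single w 1) ≤ P g w := fun g w => by
    rw [hP]; exact le_max_left _ _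
  have hb : ∀ g : Equiv.Perm (Fin n), g (finRotate n (bond i₀ g)) = i₀ := fun g => by
    rw [bond, Equiv.apply_symm_apply, Equiv.apply_symm_apply]
  have hlt : ∀ g : Equiv.Perm (Fin n), 0 < x i₀ - x (g (bond i₀ g)) := fun g =>
    sub_pos.2 (hi _ fun e => rot_ne hn _ (g.injective ((hb g).trans e.symm)))
  have hs0 : ∀ g w, 0 ≤ ∑ v, (if τ (bond i₀ g) v = w then P g v else 0) := fun g w =>
    sum_nonneg fun v _ => by split_ifs; exacts [hP0 _ _, le_rfl]
  have h1 : ∀ g w, x i₀ * P (hop i₀ g) w ≤ K g w := fun g w => by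
    have e := h (x ∘ g) (bond i₀ g) (Pi.single w 1)
    simp only [Function.comp_apply, hb] at e
    rw [hP, mul_max_of_nonneg _ _ (hx _).le, mul_zero, hK]
    refine max_le ?_ (add_nonneg (mul_nonneg (hlt g).le (hs0 g w)) (mul_nonneg (hx _).le (hP0 _ _)))
    refine le_trans (le_of_eq e.symm) (add_le_add (mul_le_mul_of_nonneg_left ?_ (hlt g).le)
      (mul_le_mul_of_nonneg_left (hP1 _ _) (hx _).le))
    rw [expand]
    refine sum_le_sum fun v _ => ?_
    rw [Pi.single_apply]
    split_ifs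
    · rw [one_mul]; exact hP1 _ _
    · rw [zero_mul]
  have h2 : ∑ z : Equiv.Perm (Fin n) × Ω, x i₀ * P (hop i₀ z.1) z.2 =
      ∑ z : Equiv.Perm (Fin n) × Ω, K z.1 z.2 := by
    rw [Fintype.sum_prod_type, Fintype.sum_prod_type,
      (hop_bij i₀).sum_comp fun g => ∑ w, x i₀ * P g w]
    refine sum_congr rfl fun g _ => ?_
    simp only [hK, sum_add_distrib, ← mul_sum]
    rw [sum_comm]
    simp only [sum_ite_eq, mem_univ, if_true]
    ring
  have h3 := (sum_eq_sum_iff_of_le fun z _ => h1 z.1 z.2).1 h2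
  have h4 : ∀ w, 0 < K g w → 0 < Φ (x ∘ hop i₀ g) (Pi.single w 1) := fun w hw => by
    rw [← h3 (g, w) (mem_univ _), hP] at hw
    simpa using (mul_pos_iff_of_pos_left (hx _)).1 hw
  have h5 : 0 < P g v := hv.trans_le (hP1 _ _)
  refine ⟨h4 _ ?_, h4 _ ?_⟩ <;> rw [hK]
  · exact add_pos_of_nonneg_of_pos (mul_nonneg (hlt g).le (hs0 g _)) (mul_pos (hx _) h5)
  · refine add_pos_of_pos_of_nonneg (mul_pos (hlt g) (h5.trans_le ?_))
      (mul_nonneg (hx _).le (hP0 _ _))
    refine le_trans (by simp) (single_le_sum (fun v _ => ?_) (mem_univ v))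
    split_ifs; exacts [hP0 _ _, le_rfl]

lemma pos_iter (h : ∀ x a, ExAt τ Φ x a) (hn : 2 ≤ n) (hx : ∀ i, 0 < x i)
    (hi : ∀ i, i ≠ i₀ → x i < x i₀) {g : Equiv.Perm (Fin n)} {v : Ω}
    (hv : 0 < Φ (x ∘ g) (Pi.single v 1)) (k : ℕ) :
    0 < Φ (x ∘ (hop i₀)^[k] g) (Pi.single v 1) := by
  induction k with
  | zero => exact hv
  | succ k ih => rw [Function.iterate_succ_apply']; exact (pos_step h hn hx hi ih).1

lemma pos_reach (h : ∀ x a, ExAt τ Φ x a) (hn : 2 ≤ n) (hx : ∀ i, 0 < x i)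
    (hi : ∀ i, i ≠ i₀ → x i < x i₀) {v w : Ω}
    (hr : Relation.ReflTransGen (fun x y => ∃ a, y = τ a x) v w) :
    ∀ g : Equiv.Perm (Fin n), 0 < Φ (x ∘ g) (Pi.single v 1) →
      ∃ k, 0 < Φ (x ∘ (hop i₀)^[k] g) (Pi.single w 1) := by
  induction hr using Relation.ReflTransGen.head_induction_on with
  | refl => exact fun g hg => ⟨0, hg⟩
  | head hab _ ih =>
    intro g hg
    obtain ⟨a, rfl⟩ := hab
    obtain ⟨k, hk⟩ := exists_bond i₀ a g
    have := (pos_step h hn hx hi (pos_iter h hn hx hi hg k)).2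
    rw [hk] at this
    obtain ⟨l, hl⟩ := ih _ this
    exact ⟨l + (k + 1), by rwa [Function.iterate_add_apply, Function.iterate_succ_apply']⟩

/-- a family with the exchange relation and mass zero vanishes -/
lemma uniq_ex (h : ∀ x a, ExAt τ Φ x a) (hn : 2 ≤ n) (hx : ∀ i, 0 < x i)
    (hi : Function.Injective x) (w : Ω) (hw : ∀ v, Φ x (Pi.single v 1) ≠ 0 →
      Relation.ReflTransGen (fun x y => ∃ a, y = τ a x) v w) (h1 : Φ x 1 = 0) (g : Ω → ℝ) :
    Φ x g = 0 := by
  obtain ⟨i₀, -, h0⟩ := exists_max_image univ x ⟨⟨0, by omega⟩, mem_univ _⟩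
  have hi' : ∀ i, i ≠ i₀ → x i < x i₀ := fun i e =>
    lt_of_le_of_ne (h0 i (mem_univ _)) fun e' => e (hi e')
  have h' : ∀ x a, ExAt τ (fun x => -Φ x) x a := fun x a g => by
    have := h x a g
    simp only [LinearMap.neg_apply]
    linarith
  have key : ∀ v v', 0 < Φ x (Pi.single v 1) → Φ x (Pi.single v' 1) < 0 → False := by
    intro v v' a1 a2
    obtain ⟨k, hk⟩ := pos_reach h hn hx hi' (hw v a1.ne') 1 a1
    obtain ⟨l, hl⟩ := pos_reach h' hn hx hi' (hw v' a2.ne) 1 (by simpa using a2)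
    have b1 := pos_iter h hn hx hi' hk l
    have b2 := pos_iter h' hn hx hi' hl k
    rw [← Function.iterate_add_apply] at b1 b2
    rw [add_comm, LinearMap.neg_apply] at b2
    linarith
  rw [expand] at h1 ⊢
  simp only [Pi.one_apply, one_mul] at h1
  refine sum_eq_zero fun v _ => mul_eq_zero_of_right _ ?_
  by_cases a : ∃ v, 0 < Φ x (Pi.single v 1)
  · obtain ⟨v', hv'⟩ := a
    exact (sum_eq_zero_iff_of_nonneg fun v _ => not_lt.1 (key v' v hv')).1 h1 v (mem_univ _)
  · push Not at a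
    exact (sum_eq_zero_iff_of_nonpos fun v _ => a v).1 h1 v (mem_univ _)

end uniq

/-- families of level sets -/
abbrev Ch (n : ℕ) : Type := ℕ → Finset (Fin n)

/-- weighted linear functionals on functions of level sets -/
abbrev Fam (n : ℕ) : Type := (Fin n → ℝ) → (Ch n → ℝ) →ₗ[ℝ] ℝ

/-- the exclusion move on all levels -/
def tauC (a : Fin n) (F : Ch n) : Ch n := fun c => tau a (F c)

/-- weight of a row -/
def wt (x : Fin n → ℝ) (B : Finset (Fin n)) : ℝ := ∏ i ∈ B, x i

/-- elementary symmetric function -/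
def es (t : ℕ) (x : Fin n → ℝ) : ℝ := ∑ B ∈ powersetCard t univ, wt x B

/-- a row of services acts on the levels -/
noncomputable def step (B : Finset (Fin n)) (F : Ch n) : Ch n :=
  fun c => if c < B.card then D (F c) B else B

/-- adding a row with `t` services -/
noncomputable def row (t : ℕ) (Φ : Fam n) : Fam n := fun x =>
  ∑ B ∈ powersetCard t univ, wt x B • (Φ x).comp (LinearMap.funLeft ℝ ℝ (step B))

lemma row_apply (t : ℕ) (Φ : Fam n) (x : Fin n → ℝ) (g : Ch n → ℝ) :
    row t Φ x g = ∑ B ∈ powersetCard t univ, wt x B * Φ x fun F => g (step B F) := by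
  simp only [row, LinearMap.sum_apply, LinearMap.smul_apply, smul_eq_mul, LinearMap.comp_apply]
  rfl

/-- the multiline queue with rows of sizes `1, ..., t` -/
noncomputable def mlq : ℕ → Fam n
  | 0 => fun _ => LinearMap.proj fun _ => ∅
  | t + 1 => row (t + 1) (mlq t)

/-- nested level sets of the right sizes -/
def Valid (t : ℕ) (F : Ch n) : Prop := (∀ c, (F c).card = min c t) ∧ Monotone F

/-- the functional only sees valid families -/
def Sup (t : ℕ) (Φ : Fam n) : Prop :=
  ∀ x g g', (∀ F, Valid t F → g F = g' F) → Φ x g = Φ x g'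

lemma D_mono {S T B : Finset (Fin n)} (h : S ⊆ T) (hc : T.card < B.card) : D S B ⊆ D T B := by
  intro i hi
  rw [mem_D] at hi ⊢
  have := Q_mono h (Subset.refl B) hc i
  have := ind_mono h i
  exact ⟨hi.1, by omega⟩

lemma Valid.step {m : ℕ} {F : Ch n} (h : Valid m F) {B : Finset (Fin n)} (hB : B.card ≤ m + 1) :
    Valid B.card (step B F) := by
  refine ⟨fun c => ?_, fun c c' hc => ?_⟩
  · have := h.1 c
    unfold MP_9492fd_pr.step
    split_ifs
    · rw [card_D (by omega)]; omega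
    · omega
  · have := h.1 c'
    unfold MP_9492fd_pr.step
    split_ifs with h1 h2
    · exact D_mono (h.2 hc) (by omega)
    · exact D_subset _ _
    · omega
    · exact le_rfl

lemma Sup.row {m t : ℕ} {Φ : Fam n} (h : Sup m Φ) (ht : t ≤ m + 1) : Sup t (row t Φ) := by
  intro x g g' e
  rw [row_apply, row_apply]
  refine sum_congr rfl fun B hB => ?_
  obtain rfl := (mem_powersetCard.1 hB).2
  rw [h x _ _ fun F hF => e _ (hF.step ht)]

lemma sup_mlq (t : ℕ) : Sup t (mlq t : Fam n) := by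
  induction t with
  | zero => exact fun x g g' e => e _ ⟨by simp, fun _ _ _ => le_rfl⟩
  | succ t ih => exact ih.row le_rfl

lemma wt_map (x : Fin n → ℝ) (s : Equiv.Perm (Fin n)) (B : Finset (Fin n)) :
    wt (x ∘ s) B = wt x (B.map s.toEmbedding) := by
  simp [wt]

lemma sum_map_perm (t : ℕ) (s : Equiv.Perm (Fin n)) (f : Finset (Fin n) → ℝ) :
    ∑ B ∈ powersetCard t univ, f (B.map s.toEmbedding) = ∑ B ∈ powersetCard t univ, f B :=
  sum_equiv s.finsetCongr (by simp) (by simp)

lemma es_perm (t : ℕ) (x : Fin n → ℝ) (s : Equiv.Perm (Fin n)) : es t (x ∘ s) = es t x := by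
  simp only [es, wt_map]
  exact sum_map_perm t s (wt x)

lemma es_pos {t : ℕ} (ht : t ≤ n) {x : Fin n → ℝ} (hx : ∀ i, 0 < x i) : 0 < es t x :=
  sum_pos (fun B _ => prod_pos fun i _ => hx i) (powersetCard_nonempty.2 (by simpa using ht))

lemma map_swap_swap (a b : Fin n) (B : Finset (Fin n)) :
    (B.map (Equiv.swap a b).toEmbedding).map (Equiv.swap a b).toEmbedding = B := by
  ext i; simp [mem_map_equiv]

lemma wt_swap (x : Fin n → ℝ) {a b : Fin n} {B : Finset (Fin n)} (ha : a ∈ B) (hb : b ∉ B) :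
    x a * wt x (B.map (Equiv.swap a b).toEmbedding) = x b * wt x B := by
  rw [← wt_map, wt, wt, ← mul_prod_erase _ _ ha, ← mul_prod_erase _ _ ha, Function.comp_apply,
    Equiv.swap_apply_left, mul_left_comm]
  congr 2
  refine prod_congr rfl fun i hi => ?_
  rw [Function.comp_apply, Equiv.swap_apply_of_ne_of_ne (ne_of_mem_erase hi)
    (ne_of_mem_of_not_mem (mem_of_mem_erase hi) hb)]

/-- the exchange relation passes through a row -/
lemma ExAt.row {m : ℕ} {Φ : Fam n} (hS : Sup m Φ) (t : ℕ) {x : Fin n → ℝ} {a : Fin n}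
    (h : ExAt tauC Φ x a) : ExAt tauC (row t Φ) x a := by
  intro g
  obtain ⟨b, hb⟩ : ∃ b, b = finRotate n a := ⟨_, rfl⟩
  obtain ⟨s, hs⟩ : ∃ s : Finset (Fin n) → Finset (Fin n),
    s = fun B => B.map (Equiv.swap a b).toEmbedding := ⟨_, rfl⟩
  have ma : ∀ B, a ∈ s B ↔ b ∈ B := fun B => by simp [hs, mem_map_equiv]
  have mb : ∀ B, b ∈ s B ↔ a ∈ B := fun B => by simp [hs, mem_map_equiv]
  have ss : ∀ B, s (s B) = B := fun B => by rw [hs]; exact map_swap_swap a b B
  have sc : ∀ B, (s B).card = B.card := fun B => by simp [hs]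
  have se : ∀ B, (a ∈ B ↔ b ∈ B) → s B = B := fun B e => by
    ext i
    by_cases h1 : i = a
    · rw [h1, ma, e]
    · by_cases h2 : i = b
      · rw [h2, mb, e]
      · simp [hs, mem_map_equiv, Equiv.swap_apply_of_ne_of_ne h1 h2]
  obtain ⟨A, hA⟩ : ∃ A : Finset (Fin n) → ℝ, ∀ B, A B = Φ x fun F => g (step B F) :=
    ⟨_, fun _ => rfl⟩
  obtain ⟨U, hU⟩ : ∃ U : Finset (Fin n) → ℝ, ∀ B, U B = Φ x fun F => g (tauC a (step B F)) :=
    ⟨_, fun _ => rfl⟩
  obtain ⟨V, hV⟩ : ∃ V : Finset (Fin n) → ℝ, ∀ B, V B = Φ x fun F => g (step B (tauC a F)) :=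
    ⟨_, fun _ => rfl⟩
  have f1 : ∀ B, B.card = t → a ∉ B → V B = A B := fun B hB e => by
    rw [hV, hA]
    refine hS _ _ _ fun F hF => congrArg g (funext fun c => ?_)
    have := hF.1 c
    simp only [step, tauC]
    split_ifs
    · exact D_tau_of_not_mem (by omega) e
    · rfl
  have f2 : ∀ B, B.card = t → b ∈ B → U B = V (tau a B) := fun B hB e => by
    rw [hU, hV]
    refine hS _ _ _ fun F hF => congrArg g (funext fun c => ?_)
    have := hF.1 c
    simp only [step, tauC, card_tau]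
    split_ifs
    · exact (D_tau_of_mem (by omega) (hb ▸ e)).symm
    · rfl
  have f3 : ∀ B, b ∉ B → U B = A B := fun B e => by
    rw [hU, hA]
    refine congrArg _ (funext fun F => congrArg g (funext fun c => tau_of_not_mem ?_))
    simp only [step]
    split_ifs
    · exact fun e' => e (hb ▸ D_subset _ _ e')
    · exact hb ▸ e
  obtain ⟨H, hH⟩ : ∃ H : Finset (Fin n) → ℝ, ∀ B, H B = wt x B * ((x b - x a) * U B + x a * A B) -
    wt x (s B) * ((x b - x a) * V B + x a * A B) := ⟨_, fun _ => rfl⟩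
  have f4 : ∀ B, B.card = t → a ∈ B → b ∉ B → H B + H (s B) = 0 := fun B hB e1 e2 => by
    have w := wt_swap x e1 e2
    have e3 : tau a (s B) = B := by
      rw [tau, ← hb, if_pos ⟨by rwa [ma], by rwa [mb]⟩]
      exact hs ▸ map_swap_swap a b B
    rw [hH, hH, ss, f3 B e2, f2 (s B) (by rw [sc, hB]) (by rwa [mb]), e3,
      f1 (s B) (by rw [sc, hB]) (by rwa [ma])]
    simp only [hs]
    linear_combination (A (B.map (Equiv.swap a b).toEmbedding) - A B) * w
  have f5 : ∀ B, B.card = t → H B + H (s B) = 0 := fun B hB => by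
    by_cases e1 : a ∈ B <;> by_cases e2 : b ∈ B
    · rw [se B (by tauto), hH, se B (by tauto), f2 B hB e2, tau_of_mem e1]; ring
    · exact f4 B hB e1 e2
    · have := f4 (s B) (by rw [sc, hB]) (by rwa [ma]) (by rwa [mb])
      rwa [ss, add_comm] at this
    · rw [se B (by tauto), hH, se B (by tauto), f3 B e2, f1 B hB e1]; ring
  have f6 : ∑ B ∈ powersetCard t univ, H B = 0 := by
    have e1 : ∑ B ∈ powersetCard t univ, H (s B) = ∑ B ∈ powersetCard t univ, H B := by
      rw [hs]; exact sum_map_perm t _ H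
    have e2 : ∑ B ∈ powersetCard t univ, (H B + H (s B)) = 0 :=
      sum_eq_zero fun B hB => f5 B (mem_powersetCard.1 hB).2
    rw [sum_add_distrib] at e2
    linarith
  rw [row_apply, row_apply, row_apply, mul_sum, mul_sum, mul_sum, ← sum_add_distrib,
    ← sub_eq_zero, ← sum_sub_distrib, ← f6]
  refine sum_congr rfl fun B _ => ?_
  have := h fun F => g (step B F)
  rw [← hV, ← hA, ← hb] at this
  rw [hH, ← hU, ← hA, ← hb, wt_map, this, hs]
  ring

lemma ex_mlq (t : ℕ) (x : Fin n → ℝ) (a : Fin n) : ExAt tauC (mlq t) x a := by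
  induction t with
  | zero =>
    intro g
    have : tauC a (fun _ => ∅) = fun _ => ∅ := funext fun c => tau_of_not_mem (by simp)
    simp only [mlq, LinearMap.proj_apply, this]
    ring
  | succ t ih => exact ih.row (sup_mlq t) _

/-- the weighted Ferrari-Martin step -/
theorem fm_wt (hn : 2 ≤ n) {x : Fin n → ℝ} (hx : ∀ i, 0 < x i) (hi : Function.Injective x) {t : ℕ}
    (ht : t ≤ n) (g : Ch n → ℝ) :
    es t x * mlq n x (fun F => g fun c => F (min c t)) = row t (mlq n) x g := by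
  classical
  have hs := (sup_mlq (n := n) n).row (ht.trans (Nat.le_succ n))
  have := uniq_ex (Ω := Fin (t + 1) → Finset (Fin n)) (τ := fun a w k => tau a (w k))
    (Φ := fun x => (es t x • mlq n x - row t (mlq n) x).comp
      (LinearMap.funLeft ℝ ℝ fun (F : Ch n) (k : Fin (t + 1)) => F k))
    (fun x a G => by
      have e1 := ex_mlq n x a fun F => G fun k => F k
      have e2 := (ex_mlq n x a).row (sup_mlq n) t fun F => G fun k => F k
      simp only [LinearMap.comp_apply, LinearMap.sub_apply, LinearMap.smul_apply, smul_eq_mul,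
        es_perm]
      simp only [tauC] at e1 e2
      unfold LinearMap.funLeft
      simp only [LinearMap.coe_mk, AddHom.coe_mk, Function.comp_def] at e1 e2 ⊢
      linear_combination es t x * e1 - e2) hn hx hi (fun k => seg n k)
    (fun v hv => by
      have : ∀ k, (v k).card = k := by
        by_contra hc
        refine hv ?_
        have e : ∀ m, t ≤ m → ∀ F : Ch n, Valid m F → LinearMap.funLeft ℝ ℝ
            (fun (F : Ch n) (k : Fin (t + 1)) => F k) (Pi.single v 1) F = (0 : Ch n → ℝ) F :=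
          fun m hm F hF => Pi.single_eq_of_ne (fun e => hc fun k => by
            rw [← e, hF.1, min_eq_left (by omega)]) _
        simp only [LinearMap.comp_apply, LinearMap.sub_apply, LinearMap.smul_apply]
        rw [sup_mlq n x _ _ (e n ht), hs x _ _ (e t le_rfl)]
        simp
      simpa only [this] using reach v)
    (by
      simp only [LinearMap.comp_apply, LinearMap.sub_apply, LinearMap.smul_apply, row_apply, es,
        smul_eq_mul, sum_mul]
      exact sub_self _) fun w => g fun c => w ⟨min c t, by omega⟩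
  simp only [LinearMap.comp_apply, LinearMap.sub_apply, LinearMap.smul_apply, smul_eq_mul] at this
  refine (sub_eq_zero.1 this).trans (hs x _ _ fun F hF => congrArg g (funext fun c => ?_))
  exact eq_of_subset_of_card_le (hF.2 (min_le_left _ _)) (by rw [hF.1, hF.1]; simp only; omega)

lemma cont_mlq (t : ℕ) (g : Ch n → ℝ) : Continuous fun x => mlq t x g := by
  induction t generalizing g with
  | zero => exact continuous_const
  | succ t ih =>
    simp only [mlq, row_apply, wt]
    exact continuous_finsetSum _ fun B _ =>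
      (continuous_finsetProd _ fun i _ => continuous_apply i).mul (ih _)

/-- at unit weights the multiline queue is the stationary law -/
lemma mlq_one {π : Equiv.Perm (Fin n) → ℝ} (hπ : Stat π) (h1 : ∑ σ, π σ = 1) {t : ℕ} (ht : t ≤ n) :
    ∃ Z : ℝ, 0 < Z ∧ ∀ g, mlq t 1 g = Z * ∑ σ, π σ * g fun c => lev σ (min c t) := by
  induction t with
  | zero =>
    refine ⟨1, one_pos, fun g => ?_⟩
    have : ∀ σ : Equiv.Perm (Fin n), lev σ 0 = ∅ := fun σ => by simp [lev]
    simp [mlq, this, ← sum_mul, h1]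
  | succ t ih =>
    obtain ⟨Z, hZ, e⟩ := ih (by omega)
    refine ⟨Z * n.choose (t + 1), mul_pos hZ (by exact_mod_cast Nat.choose_pos ht), fun g => ?_⟩
    have := fm_step hπ (K := Fin (t + 1)) (fun k => k) ht (fun k => k.isLt)
      fun F B => g fun c => if h : c < t + 1 then F ⟨c, h⟩ else B
    rw [mlq, row_apply, mul_assoc]
    simp only [e, wt, Pi.one_apply, prod_const_one, one_mul, ← mul_sum]
    congr 1
    refine Eq.trans (sum_congr rfl fun B hB => sum_congr rfl fun σ _ => ?_) (this.symm.trans ?_)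
    · congr 2
      funext c
      rw [step, (mem_powersetCard.1 hB).2]
      split_ifs
      · rw [min_eq_left (by omega)]
      · rfl
    · congr 1
      refine sum_congr rfl fun σ _ => ?_
      congr 2
      funext c
      split_ifs
      · rw [min_eq_left (by omega)]
      · rw [min_eq_right (by omega)]

end Pool.Agent.P.MP_9492fd_pr
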